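import Mathlib

namespace Pool.Agent.Helper273_LT

open Matrix

variable {K : Type*} [Field K]

/-- A square matrix is irreducible tridiagonal: the entries off the three central diagonals are
zero, those on the sub- and superdiagonal are all nonzero. -/
def IrrTridiag {n : ℕ} (M : Matrix (Fin n) (Fin n) K) : Prop :=
  (∀ i j : Fin n, (i : ℕ) + 1 < (j : ℕ) → M i j = 0 ∧ M j i = 0) ∧
  (∀ i j : Fin n, (i : ℕ) + 1 = (j : ℕ) → M i j ≠ 0 ∧ M j i ≠ 0)

/-- The matrix representing the linear map `v ↦ M v` of `K^n` with respect to the basis `b`. -/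
noncomputable def rep {n : ℕ} (b : Module.Basis (Fin n) K (Fin n → K))
    (M : Matrix (Fin n) (Fin n) K) : Matrix (Fin n) (Fin n) K :=
  fun i j => b.repr (M.mulVec (b j)) i

theorem rep_eq {n : ℕ} (b : Module.Basis (Fin n) K (Fin n → K))
    (M : Matrix (Fin n) (Fin n) K) : LinearMap.toMatrix b b (Matrix.toLin' M) = rep b M := by
  ext i j
  rw [LinearMap.toMatrix_apply, Matrix.toLin'_apply]
  rfl

/-- Some basis of `K^n` represents `X` by a diagonal matrix and `Y` and `Z` by irreducible
tridiagonal matrices. -/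
def Adapted {n : ℕ} (X Y Z : Matrix (Fin n) (Fin n) K) : Prop :=
  ∃ b : Module.Basis (Fin n) K (Fin n → K),
    (rep b X).IsDiag ∧ IrrTridiag (rep b Y) ∧ IrrTridiag (rep b Z)

/-- Leonard triples of matrices acting on `K^n`. -/
def IsLeonardTriple {n : ℕ} (X Y Z : Matrix (Fin n) (Fin n) K) : Prop :=
  Adapted X Y Z ∧ Adapted Y Z X ∧ Adapted Z X Y

/-- The matrix `A` of the problem. -/
def kA (K : Type*) [Field K] (d : ℕ) : Matrix (Fin (d + 1)) (Fin (d + 1)) K :=
  fun i j => if (i : ℕ) + 1 = j then (d : K) - (i : ℕ) else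
    if (j : ℕ) + 1 = i then ((j : ℕ) : K) + 1 else 0

/-- The matrix `A*` of the problem. -/
def kD (K : Type*) [Field K] (d : ℕ) : Matrix (Fin (d + 1)) (Fin (d + 1)) K :=
  Matrix.diagonal (fun i => (d : K) - 2 * (i : ℕ))

/-- bridging: bases and invertible matrices -/
theorem adapted_iff {n : ℕ} (X Y Z : Matrix (Fin n) (Fin n) K) :
    Adapted X Y Z ↔ ∃ P Q : Matrix (Fin n) (Fin n) K, P * Q = 1 ∧ Q * P = 1 ∧
      (Q * X * P).IsDiag ∧ IrrTridiag (Q * Y * P) ∧ IrrTridiag (Q * Z * P) := by
  constructor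
  · rintro ⟨b, h1, h2, h3⟩
    let e := Pi.basisFun K (Fin n)
    have key : ∀ M : Matrix (Fin n) (Fin n) K,
        rep b M = b.toMatrix e * M * e.toMatrix b := by
      intro M
      rw [← rep_eq]
      have := basis_toMatrix_mul_linearMap_toMatrix_mul_basis_toMatrix b e b e (Matrix.toLin' M)
      rw [← this]
      congr 2
      exact (LinearMap.toMatrix'_toLin' M)
    refine ⟨e.toMatrix b, b.toMatrix e, ?_, ?_, ?_, ?_, ?_⟩
    · exact Module.Basis.toMatrix_mul_toMatrix_flip e b
    · exact Module.Basis.toMatrix_mul_toMatrix_flip b e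
    · rw [← key]; exact h1
    · rw [← key]; exact h2
    · rw [← key]; exact h3
  · rintro ⟨P, Q, hPQ, hQP, h1, h2, h3⟩
    let e := Pi.basisFun K (Fin n)
    let L : (Fin n → K) ≃ₗ[K] (Fin n → K) :=
      LinearEquiv.ofLinearMap (Matrix.toLin' P) (Matrix.toLin' Q)
        (by rw [← Matrix.toLin'_mul, hPQ, Matrix.toLin'_one])
        (by rw [← Matrix.toLin'_mul, hQP, Matrix.toLin'_one])
    let b := e.map L
    have hb : e.toMatrix b = P := by
      ext i j
      simp [Module.Basis.toMatrix_apply, e, b, L, Matrix.mulVec_single]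
    have hb' : b.toMatrix e = Q := by
      have h := Module.Basis.toMatrix_mul_toMatrix_flip b e
      rw [hb] at h
      calc b.toMatrix e = b.toMatrix e * (P * Q) := by rw [hPQ, mul_one]
        _ = (b.toMatrix e * P) * Q := by rw [mul_assoc]
        _ = Q := by rw [h, one_mul]
    have key : ∀ M : Matrix (Fin n) (Fin n) K,
        rep b M = Q * M * P := by
      intro M
      rw [← rep_eq]
      have := basis_toMatrix_mul_linearMap_toMatrix_mul_basis_toMatrix b e b e (Matrix.toLin' M)
      rw [← this, hb, hb']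
      congr 2
      exact (LinearMap.toMatrix'_toLin' M)
    refine ⟨b, ?_, ?_, ?_⟩
    · rw [key]; exact h1
    · rw [key]; exact h2
    · rw [key]; exact h3

end Pool.Agent.Helper273_LT
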