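import Pool.Agent.Helper273_LT.Rec

namespace Pool.Agent.Helper273_LT

open Matrix

variable {K : Type*} [Field K] {d : ℕ}

/-- band width -/
def IsBand (k : ℤ) (M : Matrix (Fin (d + 1)) (Fin (d + 1)) K) : Prop :=
  ∀ i j : ℤ, i + k < j ∨ j + k < i → ent M i j = 0

theorem IsTri.band {M : Matrix (Fin (d + 1)) (Fin (d + 1)) K} (h : IsTri M) : IsBand 1 M := h

theorem band_tri_mul {k : ℤ} {T M : Matrix (Fin (d + 1)) (Fin (d + 1)) K} (hT : IsTri T)
    (hM : IsBand k M) : IsBand (k + 1) (T * M) := by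
  intro i j hij
  rw [ent_tri_mul hT, hM (i - 1) j (by omega), hM i j (by omega), hM (i + 1) j (by omega)]
  ring

theorem band_mul_tri {k : ℤ} {T M : Matrix (Fin (d + 1)) (Fin (d + 1)) K} (hT : IsTri T)
    (hM : IsBand k M) : IsBand (k + 1) (M * T) := by
  intro i j hij
  rw [ent_mul_tri hT, hM i (j - 1) (by omega), hM i j (by omega), hM i (j + 1) (by omega)]
  ring

theorem IsBand.mono {k l : ℤ} (hkl : k ≤ l) {M : Matrix (Fin (d + 1)) (Fin (d + 1)) K}
    (h : IsBand k M) : IsBand l M := fun i j hij => h i j (by omega)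

theorem IsBand.add {k : ℤ} {M N : Matrix (Fin (d + 1)) (Fin (d + 1)) K}
    (hM : IsBand k M) (hN : IsBand k N) : IsBand k (M + N) := by
  intro i j hij; rw [ent_add, hM i j hij, hN i j hij, add_zero]

theorem IsBand.sub {k : ℤ} {M N : Matrix (Fin (d + 1)) (Fin (d + 1)) K}
    (hM : IsBand k M) (hN : IsBand k N) : IsBand k (M - N) := by
  intro i j hij; rw [ent_sub, hM i j hij, hN i j hij, sub_zero]

theorem IsBand.smul {k : ℤ} (c : K) {M : Matrix (Fin (d + 1)) (Fin (d + 1)) K}
    (hM : IsBand k M) : IsBand k (c • M) := by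
  intro i j hij; rw [ent_smul, hM i j hij, mul_zero]

theorem isDiag_band {M : Matrix (Fin (d + 1)) (Fin (d + 1)) K} (h : M.IsDiag) :
    IsBand 0 M := by
  intro i j hij
  unfold ent
  split_ifs with h1
  · apply h
    intro h2
    rw [Fin.mk.injEq] at h2
    omega
  · rfl

theorem IsBand.tri {M : Matrix (Fin (d + 1)) (Fin (d + 1)) K} (h : IsBand 0 M) : IsTri M :=
  fun i j hij => h i j (by omega)

theorem ent_mul_diag {X : Matrix (Fin (d + 1)) (Fin (d + 1)) K} (hX : IsBand 0 X)
    (M : Matrix (Fin (d + 1)) (Fin (d + 1)) K) (i j : ℤ) :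
    ent (M * X) i j = ent M i j * ent X j j := by
  rw [ent_mul_tri hX.tri, hX (j - 1) j (by omega), hX (j + 1) j (by omega)]; ring

theorem ent_diag_mul {X : Matrix (Fin (d + 1)) (Fin (d + 1)) K} (hX : IsBand 0 X)
    (M : Matrix (Fin (d + 1)) (Fin (d + 1)) K) (i j : ℤ) :
    ent (X * M) i j = ent X i i * ent M i j := by
  rw [ent_tri_mul hX.tri, hX i (i - 1) (by omega), hX i (i + 1) (by omega)]; ring

theorem comm_zero {R Z : Matrix (Fin (d + 1)) (Fin (d + 1)) K} (hR : IrrTridiag R)
    (hc : Z * R = R * Z) (h0 : ∀ i : ℤ, ent Z i 0 = 0) : Z = 0 := by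
  have key : ∀ k : ℕ, ∀ i : ℤ, ent Z i (k : ℤ) = 0 := by
    intro k
    induction k using Nat.strong_induction_on with
    | _ k ih =>
      rcases k with _ | k
      · exact h0
      · intro i
        by_cases hk : d ≤ k
        · exact ent_out _ _ _ (by omega)
        · have h := ent_congr hc i (k : ℤ)
          rw [ent_mul_tri hR.isTri, ent_tri_mul hR.isTri, ih k (by omega), ih k (by omega),
            ih k (by omega)] at h
          have h1 : ent Z i ((k : ℤ) - 1) * ent R ((k : ℤ) - 1) (k : ℤ) = 0 := by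
            rcases k with _ | k
            · rw [ent_out Z _ _ (by omega), zero_mul]
            · have : (((k + 1 : ℕ) : ℤ) - 1) = (k : ℤ) := by push_cast; ring
              rw [this, ih k (by omega), zero_mul]
          rw [h1] at h
          have h2 : ent Z i ((k : ℤ) + 1) * ent R ((k : ℤ) + 1) (k : ℤ) = 0 := by
            linear_combination h
          have h3 := (mul_eq_zero.1 h2).resolve_right (hR.ne_down (k : ℤ) (by omega) (by omega))
          push_cast
          exact h3
  apply ent_ext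
  intro i j h1 h2 h3 h4
  obtain ⟨k, rfl⟩ : ∃ k : ℕ, j = (k : ℤ) := ⟨j.toNat, by omega⟩
  rw [key, ent_zero]

theorem comm_form (hd : 2 ≤ d) {R Z : Matrix (Fin (d + 1)) (Fin (d + 1)) K}
    (hR : IrrTridiag R) (hc : Z * R = R * Z) (h0 : IsBand 2 Z) :
    ∃ r0 r1 r2 : K, Z = r0 • 1 + r1 • R + r2 • (R * R) := by
  have hT := hR.isTri
  have hRR : IsBand 2 (R * R) := by
    have := band_tri_mul hT hT.band
    exact this
  have h10 : ent R 1 0 ≠ 0 := hR.ne_down 0 (by omega) (by omega)
  have h21 : ent R 2 1 ≠ 0 := hR.ne_down 1 (by omega) (by omega)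
  have hRR20 : ent (R * R) 2 0 = ent R 2 1 * ent R 1 0 := by
    rw [ent_tri_mul hT, hT 2 0 (by omega), hT (2 + 1) 0 (by omega)]
    norm_num
  have hne : ent (R * R) 2 0 ≠ 0 := by rw [hRR20]; exact mul_ne_zero h21 h10
  let r2 := ent Z 2 0 / ent (R * R) 2 0
  let r1 := (ent Z 1 0 - r2 * ent (R * R) 1 0) / ent R 1 0
  let r0 := ent Z 0 0 - r1 * ent R 0 0 - r2 * ent (R * R) 0 0
  refine ⟨r0, r1, r2, ?_⟩
  have hr2 : r2 * ent (R * R) 2 0 = ent Z 2 0 := by simp only [r2]; field_simp
  have hr1 : r1 * ent R 1 0 = ent Z 1 0 - r2 * ent (R * R) 1 0 := by simp only [r1]; field_simp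
  have hr0 : r0 = ent Z 0 0 - r1 * ent R 0 0 - r2 * ent (R * R) 0 0 := rfl
  clear_value r0 r1 r2
  have key : Z - (r0 • 1 + r1 • R + r2 • (R * R)) = 0 := by
    apply comm_zero hR
    · simp only [sub_mul, mul_sub, add_mul, mul_add, smul_mul_assoc, mul_smul_comm, one_mul,
        mul_one, hc, mul_assoc]
    · intro i
      rw [ent_sub, ent_add, ent_add, ent_smul, ent_smul, ent_smul]
      by_cases hi : i < 0
      · rw [ent_out Z _ _ (by omega), ent_out _ _ _ (by omega), ent_out R _ _ (by omega),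
          ent_out (R * R) _ _ (by omega)]
        ring
      · by_cases hi2 : 2 < i
        · rw [h0 i 0 (by omega), ent_one_off i 0 (by omega), hT i 0 (by omega),
            hRR i 0 (by omega)]
          ring
        · obtain rfl | rfl | rfl : i = 0 ∨ i = 1 ∨ i = 2 := by omega
          · rw [ent_one_diag 0 (by omega) (by omega)]
            linear_combination -hr0
          · rw [ent_one_off 1 0 (by omega)]
            linear_combination -hr1
          · rw [ent_one_off 2 0 (by omega), hT 2 0 (by omega)]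
            linear_combination -hr2
  exact sub_eq_zero.1 key

end Pool.Agent.Helper273_LT
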