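import Pool.Agent.Helper273_LT.Model

namespace Pool.Agent.Helper273_LT

open Matrix

variable {K : Type*} [Field K] {d : ℕ}

/-- the commutator `A D - D A` -/
def kB (K : Type*) [Field K] (d : ℕ) : Matrix (Fin (d + 1)) (Fin (d + 1)) K :=
  kA K d * kD K d - kD K d * kA K d

theorem rAB : kA K d * kB K d - kB K d * kA K d = (4 : K) • kD K d := by
  rw [← relAAD, kB]
  simp only [mul_sub, sub_mul, mul_assoc]
  module

theorem rDB : kD K d * kB K d - kB K d * kD K d = (-4 : K) • kA K d := by
  rw [neg_smul, ← relDDA, kB]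
  simp only [mul_sub, sub_mul, mul_assoc]
  module

/-- the general element of the three dimensional Lie algebra -/
def lin3 (d : ℕ) (u v w : K) : Matrix (Fin (d + 1)) (Fin (d + 1)) K :=
  u • kA K d + v • kD K d + w • kB K d

theorem br (u v w a b e : K) :
    lin3 d u v w * lin3 d a b e - lin3 d a b e * lin3 d u v w =
      lin3 d (-4 * (v * e - w * b)) (4 * (u * e - w * a)) (u * b - v * a) := by
  have rB : kA K d * kD K d - kD K d * kA K d = kB K d := rfl
  unfold lin3
  simp only [mul_add, add_mul, smul_mul_assoc, mul_smul_comm, smul_add, smul_smul]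
  linear_combination (norm := module) (u * b - v * a) • rB +
    (u * e - w * a) • (rAB (K := K) (d := d)) + (v * e - w * b) • (rDB (K := K) (d := d))

theorem triple_eq (S T : Matrix (Fin (d + 1)) (Fin (d + 1)) K) :
    S * (S * T) - (2 : K) • (S * (T * S)) + T * S * S =
      S * (S * T - T * S) - (S * T - T * S) * S := by
  simp only [mul_sub, sub_mul, mul_assoc]
  module

theorem br2 (u v w a b e : K) :
    lin3 d u v w * (lin3 d u v w * lin3 d a b e) - (2 : K) • (lin3 d u v w *
      (lin3 d a b e * lin3 d u v w)) + lin3 d a b e * lin3 d u v w * lin3 d u v w =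
      lin3 d (-4 * (v * (u * b - v * a) - w * (4 * (u * e - w * a))))
        (4 * (u * (u * b - v * a) - w * (-4 * (v * e - w * b))))
        (u * (4 * (u * e - w * a)) - v * (-4 * (v * e - w * b))) := by
  rw [triple_eq, br, br]

theorem ent_kB (i j : ℤ) : ent (kB K d) i j = (2 * (i : K) - 2 * j) * ent (kA K d) i j := by
  rw [kB, ent_sub, ent_mul_kD, ent_kD_mul]; ring

theorem irr_lin [CharZero K] (α a b c : K) (h : b ^ 2 ≠ 4 * c ^ 2) :
    IrrTridiag (α • (1 : Matrix (Fin (d + 1)) (Fin (d + 1)) K) + lin3 d b a c) := by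
  apply irr_of_ent
  · intro i j hij
    unfold lin3
    simp only [ent_add, ent_smul, ent_kB]
    rw [ent_one_off i j (by omega), kA_isTri i j hij, kD_isTri i j hij]
    ring
  · intro i h0 h1
    have hb1 : b - 2 * c ≠ 0 := by
      intro h2; apply h; linear_combination (b + 2 * c) * h2
    have hb2 : b + 2 * c ≠ 0 := by
      intro h2; apply h; linear_combination (b - 2 * c) * h2
    unfold lin3
    simp only [ent_add, ent_smul, ent_kB]
    rw [ent_one_off i (i + 1) (by omega), ent_one_off (i + 1) i (by omega),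
      ent_kD_off i (i + 1) (by omega), ent_kD_off (i + 1) i (by omega),
      ent_kA_up i h0 (by omega)]
    have h3 := ent_kA_down (K := K) (d := d) (i + 1) (by omega) (by omega)
    rw [add_sub_cancel_right] at h3
    rw [h3]
    have h4 : (d : K) - i ≠ 0 := by
      have : ((d : K) - i) = (((d : ℤ) - i : ℤ) : K) := by push_cast; ring
      rw [this]
      exact_mod_cast (by omega : (d : ℤ) - i ≠ 0)
    have h5 : ((i : K) + 1) ≠ 0 := by
      have : ((i : K) + 1) = ((i + 1 : ℤ) : K) := by push_cast; ring
      rw [this]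
      exact_mod_cast (by omega : i + 1 ≠ 0)
    constructor
    · have : α * 0 + (b * ((d : K) - i) + a * 0 + c * ((2 * (i : K) - 2 * ((i + 1 : ℤ) : K)) *
          ((d : K) - i))) = (b - 2 * c) * ((d : K) - i) := by push_cast; ring
      rw [this]
      exact mul_ne_zero hb1 h4
    · have : α * 0 + (b * ((i + 1 : ℤ) : K) + a * 0 + c * ((2 * ((i + 1 : ℤ) : K) - 2 * (i : K)) *
          ((i + 1 : ℤ) : K))) = (b + 2 * c) * ((i : K) + 1) := by push_cast; ring
      rw [this]
      exact mul_ne_zero hb2 h5

theorem conj_lin3 {P Q S R : Matrix (Fin (d + 1)) (Fin (d + 1)) K} (hPQ : P * Q = 1)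
    (hS : Q * S * P = kD K d) (hR : Q * R * P = kA K d) (u v w : K) :
    Q * (u • R + v • S + w • (R * S - S * R)) * P = lin3 d u v w := by
  have h1 : Q * (R * S) * P = kA K d * kD K d := by
    rw [← hS, ← hR]
    calc Q * (R * S) * P = Q * R * 1 * S * P := by simp only [mul_assoc, one_mul]
      _ = Q * R * P * (Q * S * P) := by rw [← hPQ]; simp only [mul_assoc]
  have h2 : Q * (S * R) * P = kD K d * kA K d := by
    rw [← hS, ← hR]
    calc Q * (S * R) * P = Q * S * 1 * R * P := by simp only [mul_assoc, one_mul]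
      _ = Q * S * P * (Q * R * P) := by rw [← hPQ]; simp only [mul_assoc]
  have h3 : Q * (u • R + v • S + w • (R * S - S * R)) * P =
      u • (Q * R * P) + v • (Q * S * P) + w • (Q * (R * S) * P - Q * (S * R) * P) := by
    simp only [mul_add, add_mul, mul_sub, sub_mul, mul_smul_comm, smul_mul_assoc, smul_sub]
  rw [h3, hS, hR, h1, h2, lin3, kB]

theorem conj_one {P Q : Matrix (Fin (d + 1)) (Fin (d + 1)) K} (hQP : Q * P = 1)
    (α : K) (M : Matrix (Fin (d + 1)) (Fin (d + 1)) K) :
    Q * (α • (1 : Matrix (Fin (d + 1)) (Fin (d + 1)) K) + M) * P = α • 1 + Q * M * P := by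
  rw [mul_add, add_mul, mul_smul_comm, smul_mul_assoc, mul_one, hQP]

theorem kD_isDiag (α c : K) :
    (α • (1 : Matrix (Fin (d + 1)) (Fin (d + 1)) K) + c • kD K d).IsDiag := by
  intro i j hij
  rw [Matrix.add_apply, Matrix.smul_apply, Matrix.smul_apply, Matrix.one_apply_ne hij, kD,
    Matrix.diagonal_apply_ne _ hij]
  simp

theorem lin3_add (u v w a b e : K) :
    lin3 d u v w + lin3 d a b e = lin3 d (u + a) (v + b) (w + e) := by
  unfold lin3; module

theorem lin3_smul (c u v w : K) : c • lin3 d u v w = lin3 d (c * u) (c * v) (c * w) := by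
  unfold lin3; module

theorem br2_eq (u v w a b e : K) (hN : u ^ 2 + v ^ 2 - 4 * w ^ 2 = 1)
    (ho : u * a + v * b - 4 * w * e = 0) :
    lin3 d u v w * (lin3 d u v w * lin3 d a b e) - (2 : K) • (lin3 d u v w *
      (lin3 d a b e * lin3 d u v w)) + lin3 d a b e * lin3 d u v w * lin3 d u v w =
      (4 : K) • lin3 d a b e := by
  rw [br2, lin3_smul]
  congr 1
  · linear_combination (4 * a) * hN - (4 * u) * ho
  · linear_combination (4 * b) * hN - (4 * v) * ho
  · linear_combination (4 * e) * hN - (4 * w) * ho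

theorem kA_eq : kA K d = lin3 d 1 0 0 := by unfold lin3; module

theorem kD_eq : kD K d = lin3 d 0 1 0 := by unfold lin3; module

theorem kA_ne_zero [CharZero K] (hd : 1 ≤ d) : kA K d ≠ 0 := by
  intro h
  have h1 := ent_kA_up (K := K) (d := d) 0 (by omega) (by omega)
  rw [h, ent_zero] at h1
  have h2 : ((d : ℕ) : K) ≠ 0 := Nat.cast_ne_zero.2 (by omega)
  apply h2
  linear_combination -h1 + (by push_cast; ring : ((0 : ℤ) : K) = 0)

theorem irr_kA [CharZero K] : IrrTridiag (kA K d) := by
  have h := irr_lin (d := d) (0 : K) 0 1 0 (by norm_num)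
  rw [← kA_eq, zero_smul, zero_add] at h
  exact h

theorem family_isLeonardTriple [IsAlgClosed K] [CharZero K] (hd : 1 ≤ d) (α x y z : K)
    (hx : x ^ 2 ≠ 4 * z ^ 2) (hy : y ^ 2 ≠ 4 * z ^ 2) (hN : x ^ 2 + y ^ 2 ≠ 4 * z ^ 2) :
    IsLeonardTriple (kA K d) (kD K d)
      (α • (1 : Matrix (Fin (d + 1)) (Fin (d + 1)) K) + lin3 d x y z) := by
  refine ⟨?_, ?_, ?_⟩
  · rw [adapted_iff]
    obtain ⟨P, Q, hPQ, hQP, hS, hR⟩ := exists_model (kA K d) (kD K d) relAAD relDDA
      (kA_ne_zero hd) (fun W h1 h2 h3 => irr_AD W h1 h2 h3)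
    refine ⟨P, Q, hPQ, hQP, ?_, ?_, ?_⟩
    · rw [hS]
      have := kD_isDiag (d := d) (0 : K) 1
      rwa [zero_smul, zero_add, one_smul] at this
    · rw [hR]; exact irr_kA
    · rw [conj_one hQP]
      have h1 : lin3 d x y z = y • kD K d + x • kA K d +
          (-z) • (kD K d * kA K d - kA K d * kD K d) := by
        unfold lin3 kB; module
      rw [h1, conj_lin3 hPQ hS hR]
      exact irr_lin α x y (-z) (by simpa using hy)
  · rw [adapted_iff]
    refine ⟨1, 1, by simp, by simp, ?_, ?_, ?_⟩
    · rw [one_mul, mul_one]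
      have := kD_isDiag (d := d) (0 : K) 1
      rwa [zero_smul, zero_add, one_smul] at this
    · rw [one_mul, mul_one]
      exact irr_lin α y x z hx
    · rw [one_mul, mul_one]; exact irr_kA
  · rw [adapted_iff]
    obtain ⟨ν, hν⟩ := IsAlgClosed.exists_eq_mul_self (x ^ 2 + y ^ 2 - 4 * z ^ 2)
    have hν0 : ν ≠ 0 := by
      rintro rfl
      apply hN
      linear_combination hν
    obtain ⟨c, hc⟩ := IsAlgClosed.exists_eq_mul_self (1 - (x / ν) ^ 2)
    have hNs : (x / ν) ^ 2 + (y / ν) ^ 2 - 4 * (z / ν) ^ 2 = 1 := by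
      field_simp
      linear_combination hν
    set u := x / ν with hu
    set v := y / ν with hv
    set w := z / ν with hw
    have hc0 : c ≠ 0 := by
      rintro rfl
      apply hy
      have h1 : v ^ 2 = 4 * w ^ 2 := by linear_combination hNs + hc
      have h2 : y = v * ν := by rw [hv]; field_simp
      have h3 : z = w * ν := by rw [hw]; field_simp
      rw [h2, h3]
      linear_combination ν ^ 2 * h1
    have hv1 : 1 - v ^ 2 ≠ 0 := by
      intro h
      apply hx
      have h1 : u ^ 2 = 4 * w ^ 2 := by linear_combination hNs + h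
      have h2 : x = u * ν := by rw [hu]; field_simp
      have h3 : z = w * ν := by rw [hw]; field_simp
      rw [h2, h3]
      linear_combination ν ^ 2 * h1
    have hvw : v ^ 2 - 4 * w ^ 2 = c * c := by linear_combination hNs + hc
    let S := lin3 d u v w
    let R := lin3 d c (-(u * v) / c) (-(u * w) / c)
    have ho : u * c + v * (-(u * v) / c) - 4 * w * (-(u * w) / c) = 0 := by
      field_simp
      linear_combination (-u) * hvw
    have hNR : c ^ 2 + (-(u * v) / c) ^ 2 - 4 * (-(u * w) / c) ^ 2 = 1 := by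
      field_simp
      linear_combination u ^ 2 * hvw - c ^ 2 * hc
    have h1 : S * (S * R) - (2 : K) • (S * (R * S)) + R * S * S = (4 : K) • R :=
      br2_eq _ _ _ _ _ _ hNs ho
    have h2 : R * (R * S) - (2 : K) • (R * (S * R)) + S * R * R = (4 : K) • S :=
      br2_eq _ _ _ _ _ _ hNR (by linear_combination ho)
    have hA : kA K d = c • R + u • S + (0 : K) • (R * S - S * R) := by
      simp only [R, S]
      rw [lin3_smul, lin3_smul, lin3_add, zero_smul, add_zero, kA_eq]
      congr 1
      · linear_combination hc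
      · field_simp; ring
      · field_simp; ring
    have hD : kD K d = (-(u * v) / c) • R + v • S + (-w / c) • (R * S - S * R) := by
      simp only [R, S]
      rw [br, lin3_smul, lin3_smul, lin3_smul, lin3_add, lin3_add, kD_eq]
      congr 1
      · field_simp; ring
      · field_simp
        linear_combination (-(c ^ 2 + u ^ 2)) * hvw + c ^ 2 * hc
      · field_simp; ring
    have hS0 : S ≠ 0 := by
      intro h
      have h3 : R = 0 := by
        rw [h] at h1
        simp only [zero_mul, mul_zero, smul_zero, sub_zero, add_zero] at h1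
        have h4 : (4 : K) ≠ 0 := by norm_num
        exact (smul_eq_zero.1 h1.symm).resolve_left h4
      apply kA_ne_zero (K := K) hd
      rw [hA, h, h3]
      simp
    obtain ⟨P, Q, hPQ, hQP, hS, hR⟩ := exists_model S R h1 h2 hS0 (by
      intro W hWS hWR hW
      have hWC : ∀ t ∈ W, (R * S - S * R).mulVec t ∈ W := by
        intro t ht
        rw [Matrix.sub_mulVec, ← Matrix.mulVec_mulVec, ← Matrix.mulVec_mulVec]
        exact W.sub_mem (hWR _ (hWS _ ht)) (hWS _ (hWR _ ht))
      apply irr_AD W _ _ hW
      · intro t ht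
        rw [hA, Matrix.add_mulVec, Matrix.add_mulVec, Matrix.smul_mulVec, Matrix.smul_mulVec,
          Matrix.smul_mulVec]
        exact W.add_mem (W.add_mem (W.smul_mem _ (hWR _ ht)) (W.smul_mem _ (hWS _ ht)))
          (W.smul_mem _ (hWC _ ht))
      · intro t ht
        rw [hD, Matrix.add_mulVec, Matrix.add_mulVec, Matrix.smul_mulVec, Matrix.smul_mulVec,
          Matrix.smul_mulVec]
        exact W.add_mem (W.add_mem (W.smul_mem _ (hWR _ ht)) (W.smul_mem _ (hWS _ ht)))
          (W.smul_mem _ (hWC _ ht)))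
    refine ⟨P, Q, hPQ, hQP, ?_, ?_, ?_⟩
    · rw [conj_one hQP]
      have h3 : lin3 d x y z = (0 : K) • R + ν • S + (0 : K) • (R * S - S * R) := by
        simp only [R, S]
        rw [lin3_smul, lin3_smul, lin3_add, zero_smul, add_zero]
        congr 1
        · rw [hu]; field_simp; ring
        · rw [hv]; field_simp; ring
        · rw [hw]; field_simp; ring
      rw [h3, conj_lin3 hPQ hS hR]
      have h4 : lin3 d 0 ν 0 = ν • kD K d := by unfold lin3; module
      rw [h4]
      exact kD_isDiag _ _
    · rw [hA, conj_lin3 hPQ hS hR]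
      have h3 := irr_lin (d := d) (0 : K) u c 0 (by
        rw [pow_two]
        simpa using hc0)
      rwa [zero_smul, zero_add] at h3
    · rw [hD, conj_lin3 hPQ hS hR]
      have h3 := irr_lin (d := d) (0 : K) v (-(u * v) / c) (-w / c) (by
        intro h
        field_simp at h
        have h5 : (1 - u ^ 2) * (1 - v ^ 2) = 0 := by linear_combination h - hNs
        rcases mul_eq_zero.1 h5 with h6 | h6
        · apply hc0
          have : c * c = 0 := by rw [← hc]; exact h6
          exact mul_self_eq_zero.1 this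
        · exact hv1 h6)
      rwa [zero_smul, zero_add] at h3

end Pool.Agent.Helper273_LT
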