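import Pool.Agent.Helper273_LT.Comm

namespace Pool.Agent.Helper273_LT

open Matrix

variable {K : Type*} [Field K] {d : ℕ}

/-- conjugation as an algebra homomorphism -/
def cjH {n : ℕ} (P Q : Matrix (Fin n) (Fin n) K) (hPQ : P * Q = 1) (hQP : Q * P = 1) :
    Matrix (Fin n) (Fin n) K →ₐ[K] Matrix (Fin n) (Fin n) K :=
  AlgHom.ofLinearMap
    { toFun := fun M => Q * M * P
      map_add' := fun M N => by rw [mul_add, add_mul]
      map_smul' := fun c M => by simp }
    (by show Q * 1 * P = 1; rw [mul_one, hQP])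
    (fun M N => by
      show Q * (M * N) * P = (Q * M * P) * (Q * N * P)
      calc Q * (M * N) * P = Q * M * 1 * N * P := by simp only [mul_assoc, one_mul]
        _ = (Q * M * P) * (Q * N * P) := by rw [← hPQ]; simp only [mul_assoc])

theorem cjH_inj {n : ℕ} (P Q : Matrix (Fin n) (Fin n) K) (hPQ : P * Q = 1) (hQP : Q * P = 1) :
    Function.Injective (cjH P Q hPQ hQP) := by
  intro M N h
  have h1 : Q * M * P = Q * N * P := h
  calc M = (P * Q) * M * (P * Q) := by rw [hPQ]; simp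
    _ = P * (Q * M * P) * Q := by simp only [mul_assoc]
    _ = P * (Q * N * P) * Q := by rw [h1]
    _ = (P * Q) * N * (P * Q) := by simp only [mul_assoc]
    _ = N := by rw [hPQ]; simp

theorem adapted_hom {X Y Z : Matrix (Fin (d + 1)) (Fin (d + 1)) K} (h : Adapted X Y Z) :
    ∃ φ : Matrix (Fin (d + 1)) (Fin (d + 1)) K →ₐ[K] Matrix (Fin (d + 1)) (Fin (d + 1)) K,
      Function.Injective φ ∧ IsBand 0 (φ X) ∧ IrrTridiag (φ Y) ∧ IrrTridiag (φ Z) := by
  rw [adapted_iff] at h
  obtain ⟨P, Q, hPQ, hQP, h1, h2, h3⟩ := h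
  exact ⟨cjH P Q hPQ hQP, cjH_inj P Q hPQ hQP, isDiag_band h1, h2, h3⟩

/-- third iterated commutator -/
def cub (S T : Matrix (Fin (d + 1)) (Fin (d + 1)) K) : Matrix (Fin (d + 1)) (Fin (d + 1)) K :=
  S * (S * (S * T)) - (3 : K) • (S * (S * (T * S))) + (3 : K) • (S * (T * S * S)) -
    T * S * S * S

theorem map_cub (φ : Matrix (Fin (d + 1)) (Fin (d + 1)) K →ₐ[K]
    Matrix (Fin (d + 1)) (Fin (d + 1)) K) (S T : Matrix (Fin (d + 1)) (Fin (d + 1)) K) :
    φ (cub S T) = cub (φ S) (φ T) := by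
  unfold cub
  simp only [map_sub, map_add, map_smul, map_mul]

theorem ent_cub {S : Matrix (Fin (d + 1)) (Fin (d + 1)) K} (hS : IsBand 0 S)
    (T : Matrix (Fin (d + 1)) (Fin (d + 1)) K) (i j : ℤ) :
    ent (cub S T) i j = (ent S i i - ent S j j) ^ 3 * ent T i j := by
  unfold cub
  rw [ent_sub, ent_add, ent_sub, ent_smul, ent_smul]
  simp only [ent_diag_mul hS, ent_mul_diag hS]
  ring

theorem cub_of_adj {S T : Matrix (Fin (d + 1)) (Fin (d + 1)) K} (hS : IsBand 0 S)
    (hT : IsTri T) {κ : K}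
    (hadj : ∀ i : ℤ, 0 ≤ i → i + 1 ≤ d → (ent S i i - ent S (i + 1) (i + 1)) ^ 2 = κ) :
    cub S T = κ • (S * T - T * S) := by
  apply ent_ext
  intro i j h0 h1 h2 h3
  rw [ent_cub hS, ent_smul, ent_sub, ent_diag_mul hS, ent_mul_diag hS]
  by_cases c1 : j = i
  · subst c1; ring
  · by_cases c2 : j = i + 1
    · subst c2
      have := hadj i h0 h3
      linear_combination ((ent S i i - ent S (i + 1) (i + 1)) * ent T i (i + 1)) * this
    · by_cases c3 : i = j + 1
      · subst c3
        have := hadj j h2 h1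
        linear_combination ((ent S (j + 1) (j + 1) - ent S j j) * ent T (j + 1) j) * this
      · rw [hT i j (by omega)]; ring

theorem adj_of_rel {S U : Matrix (Fin (d + 1)) (Fin (d + 1)) K} (hS : IsBand 0 S)
    (hU : IrrTridiag U) {κ : K}
    (rel : S * (S * U) - (2 : K) • (S * (U * S)) + U * S * S = κ • U) (i : ℤ) (h0 : 0 ≤ i)
    (h1 : i + 1 ≤ d) : (ent S i i - ent S (i + 1) (i + 1)) ^ 2 = κ := by
  have h := ent_congr rel i (i + 1)
  rw [ent_add, ent_sub, ent_smul, ent_smul] at h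
  simp only [ent_diag_mul hS, ent_mul_diag hS] at h
  apply mul_right_cancel₀ (hU.ne_up i h0 h1)
  linear_combination h

theorem map_rel (φ : Matrix (Fin (d + 1)) (Fin (d + 1)) K →ₐ[K]
    Matrix (Fin (d + 1)) (Fin (d + 1)) K) {S U : Matrix (Fin (d + 1)) (Fin (d + 1)) K} {κ : K}
    (rel : S * (S * U) - (2 : K) • (S * (U * S)) + U * S * S = κ • U) :
    φ S * (φ S * φ U) - (2 : K) • (φ S * (φ U * φ S)) + φ U * φ S * φ S = κ • φ U := by
  have := congrArg φ rel
  simpa only [map_sub, map_add, map_smul, map_mul] using this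

theorem cub_of_adapted {S T U : Matrix (Fin (d + 1)) (Fin (d + 1)) K}
    (h : Adapted S T U ∨ Adapted S U T) {κ : K}
    (rel : S * (S * U) - (2 : K) • (S * (U * S)) + U * S * S = κ • U) :
    cub S T = κ • (S * T - T * S) := by
  obtain ⟨φ, hφ, hS, hT, hU⟩ : ∃ φ : Matrix (Fin (d + 1)) (Fin (d + 1)) K →ₐ[K]
      Matrix (Fin (d + 1)) (Fin (d + 1)) K,
      Function.Injective φ ∧ IsBand 0 (φ S) ∧ IrrTridiag (φ T) ∧ IrrTridiag (φ U) := by
    rcases h with h | h
    · exact adapted_hom h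
    · obtain ⟨φ, h1, h2, h3, h4⟩ := adapted_hom h
      exact ⟨φ, h1, h2, h4, h3⟩
  apply hφ
  rw [map_cub, cub_of_adj hS hT.isTri (adj_of_rel hS hU (map_rel φ rel))]
  simp only [map_smul, map_sub, map_mul]

/-- tridiagonal in the standard basis -/
theorem tri_of_cub [CharZero K] {X : Matrix (Fin (d + 1)) (Fin (d + 1)) K}
    (h : cub (kD K d) X = (4 : K) • (kD K d * X - X * kD K d)) : IsTri X := by
  intro i j hij
  by_cases hr : (0 ≤ i ∧ i ≤ d) ∧ (0 ≤ j ∧ j ≤ d)
  · have hD : IsBand 0 (kD K d) := by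
      intro a b hab; exact ent_kD_off a b (by omega)
    have h1 := ent_congr h i j
    rw [ent_cub hD, ent_smul, ent_sub, ent_diag_mul hD, ent_mul_diag hD,
      ent_kD_diag i hr.1.1 hr.1.2, ent_kD_diag j hr.2.1 hr.2.2] at h1
    have h2 : (8 * (((j - i : ℤ) : K) * ((j - i - 1 : ℤ) : K) * ((j - i + 1 : ℤ) : K))) *
        ent X i j = 0 := by
      push_cast
      linear_combination h1
    refine (mul_eq_zero.1 h2).resolve_left ?_
    exact mul_ne_zero (by norm_num) (mul_ne_zero (mul_ne_zero (castne (by omega))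
      (castne (by omega))) (castne (by omega)))
  · exact ent_out _ _ _ (by omega)

theorem comm_opA {X : Matrix (Fin (d + 1)) (Fin (d + 1)) K}
    (h : cub (kA K d) X = (4 : K) • (kA K d * X - X * kA K d)) :
    opA X * kA K d = kA K d * opA X := by
  have h1 : kA K d * opA X - opA X * kA K d =
      cub (kA K d) X - (4 : K) • (kA K d * X - X * kA K d) := by
    unfold opA cub
    simp only [mul_add, add_mul, mul_sub, sub_mul, mul_smul_comm, smul_mul_assoc, mul_assoc]
    module
  rw [h, sub_self] at h1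
  exact (sub_eq_zero.1 h1).symm

/-- five parameter form, for diameter at least two -/
theorem form5 [CharZero K] (hd : 2 ≤ d) {X : Matrix (Fin (d + 1)) (Fin (d + 1)) K}
    (h : IsLeonardTriple (kA K d) (kD K d) X) : ∃ α x y z t : K, X = lin5 d α x y z t := by
  obtain ⟨h1, h2, h3⟩ := h
  have hA : cub (kA K d) X = (4 : K) • (kA K d * X - X * kA K d) :=
    cub_of_adapted (Or.inr h1) relAAD
  have hD : cub (kD K d) X = (4 : K) • (kD K d * X - X * kD K d) :=
    cub_of_adapted (Or.inl h2) relDDA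
  have htri := tri_of_cub hD
  have hcomm := comm_opA hA
  obtain ⟨φ, hφ, hX, hA', hD'⟩ := adapted_hom h3
  have hband : IsBand 2 (φ (opA X)) := by
    unfold opA
    simp only [map_sub, map_add, map_smul, map_mul]
    have hAt := hA'.isTri
    have b1 : IsBand 2 (φ (kA K d) * (φ (kA K d) * φ X)) := band_tri_mul hAt (band_tri_mul hAt hX)
    have b2 : IsBand 2 (φ (kA K d) * (φ X * φ (kA K d))) := band_tri_mul hAt (band_mul_tri hAt hX)
    have b3 : IsBand 2 (φ X * φ (kA K d) * φ (kA K d)) := band_mul_tri hAt (band_mul_tri hAt hX)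
    exact ((b1.sub (b2.smul 2)).add b3).sub ((hX.mono (by norm_num)).smul 4)
  have hc : φ (opA X) * φ (kA K d) = φ (kA K d) * φ (opA X) := by
    rw [← map_mul, hcomm, map_mul]
  obtain ⟨r0, r1, r2, hr⟩ := comm_form hd hA' hc hband
  have hr' : opA X = r0 • 1 + r1 • kA K d + r2 • (kA K d * kA K d) := by
    apply hφ
    rw [hr]
    simp only [map_add, map_smul, map_mul, map_one]
  exact rec_form hd htri hr'

end Pool.Agent.Helper273_LT
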