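import Pool.Agent.Helper273_LT.Fin2

namespace Pool.Agent.Helper273_LT

open Matrix

variable {K : Type*} [Field K]

theorem kA_two : kA K 2 = !![0, 2, 0; 1, 0, 1; 0, 2, 0] := by
  ext i j
  fin_cases i <;> fin_cases j <;> simp [kA] <;> norm_num

theorem kD_two : kD K 2 = !![2, 0, 0; 0, 0, 0; 0, 0, -2] := by
  ext i j
  fin_cases i <;> fin_cases j <;> simp [kD] <;> norm_num

theorem lin5_two (α x y z t : K) : lin5 2 α x y z t =
    !![α + 2 * y, 2 * x - 4 * z + 4 * t, 0; x + 2 * z + 2 * t, α, x - 2 * z - 2 * t;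
      0, 2 * x + 4 * z - 4 * t, α - 2 * y] := by
  unfold lin5 lin3 kB kQ
  rw [kA_two, kD_two]
  ext i j
  fin_cases i <;> fin_cases j <;> simp [Matrix.mul_apply, Fin.sum_univ_three] <;> ring

theorem planar [CharZero K] {α x y z t θ θ' a0 a1 a2 b0 b1 b2 : K} (ht : t ≠ 0)
    (hD : b0 * a0 = b2 * a2) (hA : 2 * a1 * (b0 + b2) + b1 * (a0 + a2) = 0)
    (h1 : b0 * a0 + b1 * a1 + b2 * a2 = 0)
    (e1 : (α + 2 * y) * a0 + (2 * x - 4 * z + 4 * t) * a1 = θ * a0)
    (e2 : (x + 2 * z + 2 * t) * a0 + α * a1 + (x - 2 * z - 2 * t) * a2 = θ * a1)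
    (e3 : (2 * x + 4 * z - 4 * t) * a1 + (α - 2 * y) * a2 = θ * a2)
    (f1 : b0 * (α + 2 * y) + b1 * (x + 2 * z + 2 * t) = θ' * b0)
    (f2 : b0 * (2 * x - 4 * z + 4 * t) + b1 * α + b2 * (2 * x + 4 * z - 4 * t) = θ' * b1)
    (f3 : b1 * (x - 2 * z - 2 * t) + b2 * (α - 2 * y) = θ' * b2)
    (hb : ¬ (b0 = 0 ∧ b1 = 0 ∧ b2 = 0)) : a0 + a2 = 0 := by
  by_contra hS
  obtain ⟨κ, hκ⟩ : ∃ κ : K, b0 + b2 = κ * (a0 + a2) := ⟨(b0 + b2) / (a0 + a2), by field_simp⟩
  have g1 : b1 = -2 * κ * a1 := by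
    apply mul_right_cancel₀ hS
    linear_combination hA - 2 * a1 * hκ
  have g0 : b0 = κ * a2 := by
    apply mul_right_cancel₀ hS
    linear_combination hD + a2 * hκ
  have g2 : b2 = κ * a0 := by linear_combination hκ - g0
  have hκ0 : κ ≠ 0 := by
    rintro rfl
    apply hb
    refine ⟨?_, ?_, ?_⟩
    · rw [g0]; ring
    · rw [g1]; ring
    · rw [g2]; ring
  subst g0 g1 g2
  have s1 : a0 * a2 = a1 ^ 2 := by
    apply mul_left_cancel₀ hκ0
    linear_combination (1 / 2 : K) * h1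
  have s2 : 2 * α * a2 - 8 * t * a1 = (θ + θ') * a2 := by
    apply mul_left_cancel₀ hκ0
    linear_combination f1 + κ * e3
  have s3 : 2 * α * a0 + 8 * t * a1 = (θ + θ') * a0 := by
    apply mul_left_cancel₀ hκ0
    linear_combination f3 + κ * e1
  have s4 : θ + θ' = 2 * α := by
    apply mul_right_cancel₀ hS
    linear_combination -s2 - s3
  have s5 : a1 = 0 := by
    have : (8 * t) * a1 = 0 := by linear_combination s3 + a0 * s4
    exact (mul_eq_zero.1 this).resolve_left (mul_ne_zero (by norm_num) ht)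
  subst s5
  have s6 : a2 * (2 * x - 4 * z + 4 * t) + a0 * (2 * x + 4 * z - 4 * t) = 0 := by
    apply mul_left_cancel₀ hκ0
    linear_combination f2
  have s7 : a0 = a2 := by
    have : (8 * t) * (a0 - a2) = 0 := by linear_combination 2 * e2 - s6
    have := (mul_eq_zero.1 this).resolve_left (mul_ne_zero (by norm_num) ht)
    linear_combination this
  subst s7
  have s8 : a0 = 0 := by
    have : a0 * a0 = 0 := by linear_combination s1
    exact mul_self_eq_zero.1 this
  apply hS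
  rw [s8]; ring

theorem d2_xy [CharZero K] {α x y z t : K} (ht : t ≠ 0)
    (h : Adapted (lin5 2 α x y z t) (kA K 2) (kD K 2)) : x = 0 ∧ y = 0 := by
  rw [adapted_iff] at h
  obtain ⟨P, Q, hPQ, hQP, hX, hA, hD⟩ := h
  have hXP : lin5 2 α x y z t * P = P * (Q * lin5 2 α x y z t * P) := by
    rw [← mul_assoc, ← mul_assoc, hPQ, one_mul]
  have hQX : Q * lin5 2 α x y z t = (Q * lin5 2 α x y z t * P) * Q := by
    rw [mul_assoc _ P Q, hPQ, mul_one]
  have hA02 := (hA.1 0 2 (by decide)).1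
  have hA20 := (hA.1 0 2 (by decide)).2
  have hD02 := (hD.1 0 2 (by decide)).1
  have hD20 := (hD.1 0 2 (by decide)).2
  have o01 := hX (i := 0) (j := 1) (by decide)
  have o02 := hX (i := 0) (j := 2) (by decide)
  have o10 := hX (i := 1) (j := 0) (by decide)
  have o12 := hX (i := 1) (j := 2) (by decide)
  have o20 := hX (i := 2) (j := 0) (by decide)
  have o21 := hX (i := 2) (j := 1) (by decide)
  set Θ := Q * lin5 2 α x y z t * P with hΘ
  rw [lin5_two] at hXP hQX
  have c0 : ∀ i, (_ : Matrix (Fin 3) (Fin 3) K) i 0 = _ := fun i => congrFun (congrFun hXP i) 0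
  have c2 : ∀ i, (_ : Matrix (Fin 3) (Fin 3) K) i 2 = _ := fun i => congrFun (congrFun hXP i) 2
  have d0 : ∀ i, (_ : Matrix (Fin 3) (Fin 3) K) 0 i = _ := fun i => congrFun (congrFun hQX 0) i
  have d2 : ∀ i, (_ : Matrix (Fin 3) (Fin 3) K) 2 i = _ := fun i => congrFun (congrFun hQX 2) i
  have c00 := c0 0
  have c01 := c0 1
  have c02 := c0 2
  have c20 := c2 0
  have c21 := c2 1
  have c22 := c2 2
  have d00 := d0 0
  have d01 := d0 1
  have d02 := d0 2
  have d20 := d2 0
  have d21 := d2 1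
  have d22 := d2 2
  have q00 := congrFun (congrFun hQP 0) 0
  have q02 := congrFun (congrFun hQP 0) 2
  have q20 := congrFun (congrFun hQP 2) 0
  have q22 := congrFun (congrFun hQP 2) 2
  rw [kA_two] at hA02 hA20
  rw [kD_two] at hD02 hD20
  simp [Matrix.mul_apply, Fin.sum_univ_three, o01, o02, o10, o12, o20, o21] at c00 c01 c02 c20 c21 c22 d00 d01 d02 d20 d21 d22 q00 q02 q20 q22 hA02 hA20 hD02 hD20
  have p2 : P 0 2 + P 2 2 = 0 := by
    apply planar (α := α) (x := x) (y := y) (z := z) (t := t) (θ := Θ 2 2) (θ' := Θ 0 0)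
      (a1 := P 1 2) (b0 := Q 0 0) (b1 := Q 0 1) (b2 := Q 0 2) ht
    · linear_combination (1 / 2 : K) * hD02
    · linear_combination hA02
    · linear_combination q02
    · linear_combination c20
    · linear_combination c21
    · linear_combination c22
    · linear_combination d00
    · linear_combination d01
    · linear_combination d02
    · rintro ⟨h1, h2, h3⟩
      rw [h1, h2, h3] at q00
      simp at q00
  have p0 : P 0 0 + P 2 0 = 0 := by
    apply planar (α := α) (x := x) (y := y) (z := z) (t := t) (θ := Θ 0 0) (θ' := Θ 2 2)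
      (a1 := P 1 0) (b0 := Q 2 0) (b1 := Q 2 1) (b2 := Q 2 2) ht
    · linear_combination (1 / 2 : K) * hD20
    · linear_combination hA20
    · linear_combination q20
    · linear_combination c00
    · linear_combination c01
    · linear_combination c02
    · linear_combination d20
    · linear_combination d21
    · linear_combination d22
    · rintro ⟨h1, h2, h3⟩
      rw [h1, h2, h3] at q22
      simp at q22
  have l2 : y * P 0 2 + x * P 1 2 = 0 := by
    linear_combination (1 / 4 : K) * (c20 + c22) + (1 / 4 : K) * (Θ 2 2 - α + 2 * y) * p2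
  have l0 : y * P 0 0 + x * P 1 0 = 0 := by
    linear_combination (1 / 4 : K) * (c00 + c02) + (1 / 4 : K) * (Θ 0 0 - α + 2 * y) * p0
  have hΔ : P 0 2 * P 1 0 - P 0 0 * P 1 2 ≠ 0 := by
    intro hΔ
    have w1 : P 1 0 = 0 := by
      linear_combination (-P 1 0) * q22 + (P 1 2) * q20 + Q 2 0 * hΔ +
        Q 2 2 * (P 1 0 * p2 - P 1 2 * p0 - hΔ)
    have w0 : P 0 0 = 0 := by
      linear_combination (-P 0 0) * q22 + (P 0 2) * q20 + (- Q 2 1) * hΔ +
        Q 2 2 * (P 0 0 * p2 - P 0 2 * p0)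
    have w2 : P 2 0 = 0 := by linear_combination p0 - w0
    rw [w0, w1, w2] at q00
    simp at q00
  constructor
  · apply mul_right_cancel₀ hΔ
    linear_combination P 0 2 * l0 - P 0 0 * l2
  · apply mul_right_cancel₀ hΔ
    linear_combination P 1 0 * l2 - P 1 2 * l0

end Pool.Agent.Helper273_LT
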