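import Pool.Agent.Helper273_LT.Base

namespace Pool.Agent.Helper273_LT

open Matrix

variable {K : Type*} [Field K] {d : ℕ}

/-- matrix entries with integer indices, zero outside the range -/
def ent (M : Matrix (Fin (d + 1)) (Fin (d + 1)) K) (i j : ℤ) : K :=
  if h : (0 ≤ i ∧ i ≤ d) ∧ (0 ≤ j ∧ j ≤ d) then
    M ⟨i.toNat, by omega⟩ ⟨j.toNat, by omega⟩ else 0

theorem ent_coe (M : Matrix (Fin (d + 1)) (Fin (d + 1)) K) (i j : Fin (d + 1)) :
    ent M ((i : ℕ) : ℤ) ((j : ℕ) : ℤ) = M i j := by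
  unfold ent
  rw [dif_pos (by constructor <;> constructor <;> omega)]
  congr 1

theorem ent_out (M : Matrix (Fin (d + 1)) (Fin (d + 1)) K) (i j : ℤ)
    (h : i < 0 ∨ (d : ℤ) < i ∨ j < 0 ∨ (d : ℤ) < j) : ent M i j = 0 := by
  unfold ent
  rw [dif_neg]
  omega

theorem ent_ext {M N : Matrix (Fin (d + 1)) (Fin (d + 1)) K}
    (h : ∀ i j : ℤ, 0 ≤ i → i ≤ d → 0 ≤ j → j ≤ d → ent M i j = ent N i j) : M = N := by
  ext i j
  have := h (i : ℕ) (j : ℕ) (by omega) (by omega) (by omega) (by omega)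
  rwa [ent_coe, ent_coe] at this

theorem ent_congr {M N : Matrix (Fin (d + 1)) (Fin (d + 1)) K} (h : M = N) (i j : ℤ) :
    ent M i j = ent N i j := by rw [h]

@[simp] theorem ent_add (M N : Matrix (Fin (d + 1)) (Fin (d + 1)) K) (i j : ℤ) :
    ent (M + N) i j = ent M i j + ent N i j := by
  unfold ent; split_ifs <;> simp

@[simp] theorem ent_sub (M N : Matrix (Fin (d + 1)) (Fin (d + 1)) K) (i j : ℤ) :
    ent (M - N) i j = ent M i j - ent N i j := by
  unfold ent; split_ifs <;> simp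

@[simp] theorem ent_neg (M : Matrix (Fin (d + 1)) (Fin (d + 1)) K) (i j : ℤ) :
    ent (-M) i j = - ent M i j := by
  unfold ent; split_ifs <;> simp

@[simp] theorem ent_smul (c : K) (M : Matrix (Fin (d + 1)) (Fin (d + 1)) K) (i j : ℤ) :
    ent (c • M) i j = c * ent M i j := by
  unfold ent; split_ifs <;> simp

@[simp] theorem ent_zero (i j : ℤ) :
    ent (0 : Matrix (Fin (d + 1)) (Fin (d + 1)) K) i j = 0 := by
  unfold ent; split_ifs <;> simp

theorem ent_one_diag (i : ℤ) (h0 : 0 ≤ i) (h1 : i ≤ d) :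
    ent (1 : Matrix (Fin (d + 1)) (Fin (d + 1)) K) i i = 1 := by
  unfold ent; rw [dif_pos ⟨⟨h0, h1⟩, ⟨h0, h1⟩⟩]; simp

theorem ent_one_off (i j : ℤ) (h : i ≠ j) :
    ent (1 : Matrix (Fin (d + 1)) (Fin (d + 1)) K) i j = 0 := by
  unfold ent
  split_ifs with h1
  · rw [Matrix.one_apply_ne]
    intro h2
    rw [Fin.mk.injEq] at h2
    omega
  · rfl

/-- tridiagonal -/
def IsTri (M : Matrix (Fin (d + 1)) (Fin (d + 1)) K) : Prop :=
  ∀ i j : ℤ, i + 1 < j ∨ j + 1 < i → ent M i j = 0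

theorem IrrTridiag.isTri {M : Matrix (Fin (d + 1)) (Fin (d + 1)) K} (h : IrrTridiag M) :
    IsTri M := by
  intro i j hij
  unfold ent
  split_ifs with h1
  · rcases hij with h2 | h2
    · exact (h.1 ⟨i.toNat, by omega⟩ ⟨j.toNat, by omega⟩ (by simp only []; omega)).1
    · exact (h.1 ⟨j.toNat, by omega⟩ ⟨i.toNat, by omega⟩ (by simp only []; omega)).2
  · rfl

theorem IrrTridiag.ne_up {M : Matrix (Fin (d + 1)) (Fin (d + 1)) K} (h : IrrTridiag M)
    (i : ℤ) (h0 : 0 ≤ i) (h1 : i + 1 ≤ d) : ent M i (i + 1) ≠ 0 := by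
  unfold ent
  rw [dif_pos (by omega)]
  exact (h.2 ⟨i.toNat, by omega⟩ ⟨(i + 1).toNat, by omega⟩ (by simp only []; omega)).1

theorem IrrTridiag.ne_down {M : Matrix (Fin (d + 1)) (Fin (d + 1)) K} (h : IrrTridiag M)
    (i : ℤ) (h0 : 0 ≤ i) (h1 : i + 1 ≤ d) : ent M (i + 1) i ≠ 0 := by
  unfold ent
  rw [dif_pos (by omega)]
  exact (h.2 ⟨i.toNat, by omega⟩ ⟨(i + 1).toNat, by omega⟩ (by simp only []; omega)).2

theorem irr_of_ent {M : Matrix (Fin (d + 1)) (Fin (d + 1)) K} (h : IsTri M)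
    (h2 : ∀ i : ℤ, 0 ≤ i → i + 1 ≤ d → ent M i (i + 1) ≠ 0 ∧ ent M (i + 1) i ≠ 0) :
    IrrTridiag M := by
  constructor
  · intro i j hij
    constructor
    · rw [← ent_coe M i j]; exact h _ _ (Or.inl (by omega))
    · rw [← ent_coe M j i]; exact h _ _ (Or.inr (by omega))
  · intro i j hij
    have := h2 (i : ℕ) (by omega) (by omega)
    have hj : ((j : ℕ) : ℤ) = ((i : ℕ) : ℤ) + 1 := by omega
    rw [← hj, ent_coe, ent_coe] at this
    exact this

theorem sum_single (f : Fin (d + 1) → K) (m : ℤ) :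
    ∑ k : Fin (d + 1), (if ((k : ℕ) : ℤ) = m then f k else 0) =
      if h : 0 ≤ m ∧ m ≤ d then f ⟨m.toNat, by omega⟩ else 0 := by
  split_ifs with h
  · rw [Finset.sum_eq_single (⟨m.toNat, by omega⟩ : Fin (d + 1))]
    · rw [if_pos]; simp only []; omega
    · intro b _ hb
      rw [if_neg]
      intro h2
      apply hb
      apply Fin.ext
      simp only []
      omega
    · intro h2; exact absurd (Finset.mem_univ _) h2
  · apply Finset.sum_eq_zero
    intro k _
    rw [if_neg]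
    intro h2
    apply h
    omega

theorem ent_tri_mul {T : Matrix (Fin (d + 1)) (Fin (d + 1)) K} (hT : IsTri T)
    (M : Matrix (Fin (d + 1)) (Fin (d + 1)) K) (i j : ℤ) :
    ent (T * M) i j = ent T i (i - 1) * ent M (i - 1) j + ent T i i * ent M i j +
      ent T i (i + 1) * ent M (i + 1) j := by
  by_cases hr : (0 ≤ i ∧ i ≤ d) ∧ (0 ≤ j ∧ j ≤ d)
  · obtain ⟨i', rfl⟩ : ∃ i' : Fin (d + 1), i = ((i' : ℕ) : ℤ) :=
      ⟨⟨i.toNat, by omega⟩, by simp only []; omega⟩
    obtain ⟨j', rfl⟩ : ∃ j' : Fin (d + 1), j = ((j' : ℕ) : ℤ) :=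
      ⟨⟨j.toNat, by omega⟩, by simp only []; omega⟩
    rw [ent_coe, Matrix.mul_apply]
    have h3 : ∀ m : ℤ, ∑ k : Fin (d + 1), (if ((k : ℕ) : ℤ) = m then T i' k * M k j' else 0) =
        ent T ((i' : ℕ) : ℤ) m * ent M m ((j' : ℕ) : ℤ) := by
      intro m
      rw [sum_single]
      split_ifs with h
      · unfold ent
        rw [dif_pos (by omega), dif_pos (by omega)]
        congr 1
      · rw [ent_out T _ m (by omega), zero_mul]
    rw [← h3, ← h3, ← h3, ← Finset.sum_add_distrib, ← Finset.sum_add_distrib]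
    apply Finset.sum_congr rfl
    intro k _
    have hk := hT (i' : ℕ) (k : ℕ)
    rw [ent_coe] at hk
    by_cases ha : ((k : ℕ) : ℤ) = ((i' : ℕ) : ℤ) - 1
    · rw [if_pos ha, if_neg (by omega), if_neg (by omega)]; ring
    · by_cases hb : ((k : ℕ) : ℤ) = ((i' : ℕ) : ℤ)
      · rw [if_neg ha, if_pos hb, if_neg (by omega)]; ring
      · by_cases hc : ((k : ℕ) : ℤ) = ((i' : ℕ) : ℤ) + 1
        · rw [if_neg ha, if_neg hb, if_pos hc]; ring
        · rw [if_neg ha, if_neg hb, if_neg hc, hk (by omega)]; ring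
  · rw [ent_out _ _ _ (by omega)]
    by_cases hi : 0 ≤ i ∧ i ≤ d
    · rw [ent_out M (i - 1) j (by omega), ent_out M i j (by omega),
        ent_out M (i + 1) j (by omega)]
      ring
    · rw [ent_out T i (i - 1) (by omega), ent_out T i i (by omega),
        ent_out T i (i + 1) (by omega)]
      ring

theorem ent_mul_tri {T : Matrix (Fin (d + 1)) (Fin (d + 1)) K} (hT : IsTri T)
    (M : Matrix (Fin (d + 1)) (Fin (d + 1)) K) (i j : ℤ) :
    ent (M * T) i j = ent M i (j - 1) * ent T (j - 1) j + ent M i j * ent T j j +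
      ent M i (j + 1) * ent T (j + 1) j := by
  have htr : ∀ (N : Matrix (Fin (d + 1)) (Fin (d + 1)) K) (a b : ℤ),
      ent N.transpose a b = ent N b a := by
    intro N a b
    unfold ent
    by_cases h : (0 ≤ a ∧ a ≤ d) ∧ (0 ≤ b ∧ b ≤ d)
    · rw [dif_pos h, dif_pos (by omega)]; rfl
    · rw [dif_neg h, dif_neg (by omega)]
  have hT' : IsTri T.transpose := by
    intro a b hab
    rw [htr]
    exact hT _ _ (by omega)
  rw [← htr (M * T), Matrix.transpose_mul, ent_tri_mul hT']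
  simp only [htr]
  ring

end Pool.Agent.Helper273_LT
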