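import Pool.Agent.Helper273_LT.Conv

namespace Pool.Agent.Helper273_LT

open Matrix

variable {K : Type*} [Field K] {d : ℕ}

/-- the eigenvalues of `X` are in arithmetic progression -/
theorem arith {φ : Matrix (Fin (d + 1)) (Fin (d + 1)) K →ₐ[K]
    Matrix (Fin (d + 1)) (Fin (d + 1)) K} {X : Matrix (Fin (d + 1)) (Fin (d + 1)) K} {p q : K}
    (hX : IsBand 0 (φ X)) (hA : IrrTridiag (φ (kA K d)))
    (h : opA X = p • 1 + q • kA K d) (k : ℕ) (hk : k + 1 ≤ d) :
    ent (φ X) ((k : ℤ) + 1) ((k : ℤ) + 1) - ent (φ X) (k : ℤ) (k : ℤ) =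
      ent (φ X) 1 1 - ent (φ X) 0 0 := by
  have hT := hA.isTri
  have hphi : φ (kA K d) * (φ (kA K d) * φ X) - (2 : K) • (φ (kA K d) * (φ X * φ (kA K d))) +
      φ X * φ (kA K d) * φ (kA K d) - (4 : K) • φ X = p • 1 + q • φ (kA K d) := by
    have := congrArg φ h
    unfold opA at this
    simpa only [map_sub, map_add, map_smul, map_mul, map_one] using this
  have step : ∀ i : ℤ, 0 ≤ i → i + 2 ≤ d →
      ent (φ X) (i + 2) (i + 2) - 2 * ent (φ X) (i + 1) (i + 1) + ent (φ X) i i = 0 := by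
    intro i h0 h2
    have h3 := ent_congr hphi i (i + 2)
    rw [ent_sub, ent_add, ent_sub, ent_smul, ent_smul, ent_add, ent_smul, ent_smul,
      ent_one_off i (i + 2) (by omega), hT i (i + 2) (by omega), hX i (i + 2) (by omega),
      ← mul_assoc, ent_mul_diag hX, mul_assoc (φ X), ent_diag_mul hX,
      ent_tri_mul hT (φ X * φ (kA K d)), ent_diag_mul hX, ent_diag_mul hX, ent_diag_mul hX,
      hT (i - 1) (i + 2) (by omega), hT i (i + 2) (by omega)] at h3
    have h4 : ent (φ (kA K d) * φ (kA K d)) i (i + 2) =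
        ent (φ (kA K d)) i (i + 1) * ent (φ (kA K d)) (i + 1) (i + 2) := by
      rw [ent_tri_mul hT, hT (i - 1) (i + 2) (by omega), hT i (i + 2) (by omega)]
      ring
    rw [h4] at h3
    have h5 := hA.ne_up i h0 (by omega)
    have h6 := hA.ne_up (i + 1) (by omega) (by omega)
    rw [show i + 1 + 1 = i + 2 by ring] at h6
    apply (mul_eq_zero.1 (_ : (ent (φ (kA K d)) i (i + 1) *
      ent (φ (kA K d)) (i + 1) (i + 2)) * _ = 0)).resolve_left (mul_ne_zero h5 h6)
    linear_combination h3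
  induction k with
  | zero => simp
  | succ k ih =>
    have h1 := ih (by omega)
    have h2 := step (k : ℤ) (by omega) (by omega)
    push_cast
    rw [show (k : ℤ) + 1 + 1 = (k : ℤ) + 2 by ring]
    linear_combination h1 + h2

theorem cub_XA {φ : Matrix (Fin (d + 1)) (Fin (d + 1)) K →ₐ[K]
    Matrix (Fin (d + 1)) (Fin (d + 1)) K} (hφ : Function.Injective φ)
    {X : Matrix (Fin (d + 1)) (Fin (d + 1)) K} {p q : K}
    (hX : IsBand 0 (φ X)) (hA : IrrTridiag (φ (kA K d)))
    (h : opA X = p • 1 + q • kA K d) :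
    ∃ κ : K, cub X (kA K d) = κ • (X * kA K d - kA K d * X) := by
  refine ⟨(ent (φ X) 1 1 - ent (φ X) 0 0) ^ 2, ?_⟩
  apply hφ
  rw [map_cub, cub_of_adj hX hA.isTri (κ := (ent (φ X) 1 1 - ent (φ X) 0 0) ^ 2)]
  · simp only [map_smul, map_sub, map_mul]
  · intro i h0 h1
    obtain ⟨k, rfl⟩ : ∃ k : ℕ, i = (k : ℤ) := ⟨i.toNat, by omega⟩
    rw [← arith hX hA h k (by omega)]
    ring

theorem t_zero [CharZero K] (hd : 3 ≤ d) {α x y z t : K}
    (h : IsLeonardTriple (kA K d) (kD K d) (lin5 d α x y z t)) : t = 0 := by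
  obtain ⟨h1, h2, h3⟩ := h
  obtain ⟨φ, hφ, hX, hA, hD⟩ := adapted_hom h3
  obtain ⟨κ, hκ⟩ := cub_XA hφ hX hA (opA_lin5 α x y z t)
  obtain ⟨ψ, hψ, hA1, hD1, hX1⟩ := adapted_hom h1
  set X := lin5 d α x y z t with hXdef
  let Z := X * (X * kA K d) - (2 : K) • (X * (kA K d * X)) + kA K d * X * X - κ • kA K d
  have hZc : Z * X = X * Z := by
    have h4 : X * Z - Z * X = cub X (kA K d) - κ • (X * kA K d - kA K d * X) := by
      simp only [Z]
      unfold cub
      simp only [mul_add, add_mul, mul_sub, sub_mul, mul_smul_comm, smul_mul_assoc, mul_assoc]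
      module
    rw [hκ, sub_self] at h4
    exact (sub_eq_zero.1 h4).symm
  have hband : IsBand 2 (ψ Z) := by
    simp only [Z, map_sub, map_add, map_smul, map_mul]
    have hXt := hX1.isTri
    have b1 : IsBand 2 (ψ X * (ψ X * ψ (kA K d))) := band_tri_mul hXt (band_tri_mul hXt hA1)
    have b2 : IsBand 2 (ψ X * (ψ (kA K d) * ψ X)) := band_tri_mul hXt (band_mul_tri hXt hA1)
    have b3 : IsBand 2 (ψ (kA K d) * ψ X * ψ X) := band_mul_tri hXt (band_mul_tri hXt hA1)
    exact ((b1.sub (b2.smul 2)).add b3).sub ((hA1.mono (by norm_num)).smul κ)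
  have hc : ψ Z * ψ X = ψ X * ψ Z := by rw [← map_mul, hZc, map_mul]
  obtain ⟨r0, r1, r2, hr⟩ := comm_form (by omega) hX1 hc hband
  have hr' : Z = r0 • 1 + r1 • X + r2 • (X * X) := by
    apply hψ
    rw [hr]
    simp only [map_add, map_smul, map_mul, map_one]
  have hXt : IsTri X := lin5_isTri _ _ _ _ _
  have hAt : IsTri (kA K d) := kA_isTri
  have h5 := ent_congr hr' 0 3
  simp only [Z] at h5
  rw [ent_sub, ent_add, ent_sub, ent_smul, ent_smul, ent_add, ent_add, ent_smul, ent_smul,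
    ent_smul, ent_one_off 0 3 (by omega), hXt 0 3 (by omega), hAt 0 3 (by omega),
    band_tri_mul hXt hXt.band 0 3 (by omega)] at h5
  have ft : ∀ {R S T : Matrix (Fin (d + 1)) (Fin (d + 1)) K}, IsTri R → IsTri S → IsTri T →
      ent (R * (S * T)) 0 3 = ent R 0 1 * ent S 1 2 * ent T 2 3 := by
    intro R S T hR hS hT
    rw [ent_tri_mul hR, ent_out R 0 (0 - 1) (by omega),
      band_tri_mul hS hT.band 0 3 (by omega), show (0 : ℤ) + 1 = 1 by norm_num,
      ent_tri_mul hS T 1 3, hT (1 - 1) 3 (by omega), hT 1 3 (by omega),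
      show (1 : ℤ) + 1 = 2 by norm_num]
    ring
  rw [ft hXt hXt hAt, ft hXt hAt hXt, mul_assoc (kA K d), ft hAt hXt hXt] at h5
  have hentl : ∀ i j : ℤ, ent X i j =
      α * ent (1 : Matrix (Fin (d + 1)) (Fin (d + 1)) K) i j + (x * ent (kA K d) i j +
      y * ent (kD K d) i j + z * ((2 * (i : K) - 2 * j) * ent (kA K d) i j)) +
      t * ((2 * (d : K) - 2 * i - 2 * j) * ent (kA K d) i j) := by
    intro i j
    rw [hXdef]
    unfold lin5 lin3
    simp only [ent_add, ent_smul, ent_kB, ent_kQ]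
  have a01 : ent (kA K d) 0 1 = d := by
    have := ent_kA_up (K := K) (d := d) 0 (by omega) (by omega)
    simpa using this
  have a12 : ent (kA K d) 1 2 = (d : K) - 1 := by
    have := ent_kA_up (K := K) (d := d) 1 (by omega) (by omega)
    simpa using this
  have a23 : ent (kA K d) 2 3 = (d : K) - 2 := by
    have := ent_kA_up (K := K) (d := d) 2 (by omega) (by omega)
    simpa using this
  rw [hentl 0 1, hentl 1 2, hentl 2 3, ent_one_off 0 1 (by omega), ent_one_off 1 2 (by omega),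
    ent_one_off 2 3 (by omega), ent_kD_off 0 1 (by omega), ent_kD_off 1 2 (by omega),
    ent_kD_off 2 3 (by omega), a01, a12, a23] at h5
  push_cast at h5
  have h6 : (32 * ((d : K) * ((d : K) - 1) * ((d : K) - 2))) * (t * t) = 0 := by
    linear_combination h5
  have d0 : (d : K) ≠ 0 := Nat.cast_ne_zero.2 (by omega)
  have d1 : (d : K) - 1 ≠ 0 := by
    have := castne (K := K) (a := (d : ℤ) - 1) (by omega)
    push_cast at this; exact this
  have d2 : (d : K) - 2 ≠ 0 := by
    have := castne (K := K) (a := (d : ℤ) - 2) (by omega)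
    push_cast at this; exact this
  have h7 := (mul_eq_zero.1 h6).resolve_left
    (mul_ne_zero (by norm_num) (mul_ne_zero (mul_ne_zero d0 d1) d2))
  exact mul_self_eq_zero.1 h7

end Pool.Agent.Helper273_LT
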