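import Pool.Agent.Helper273_LT.Fin1

namespace Pool.Agent.Helper273_LT

open Matrix

variable {K : Type*} [Field K] {d : ℕ}

theorem map_lin5 (φ : Matrix (Fin (d + 1)) (Fin (d + 1)) K →ₐ[K]
    Matrix (Fin (d + 1)) (Fin (d + 1)) K) (α x y z t : K) :
    φ (lin5 d α x y z t) = α • 1 + (x • φ (kA K d) + y • φ (kD K d) +
      z • (φ (kA K d) * φ (kD K d) - φ (kD K d) * φ (kA K d))) +
      t • (φ (kA K d) * φ (kD K d) + φ (kD K d) * φ (kA K d)) := by
  unfold lin5 lin3 kB kQ
  simp only [map_sub, map_add, map_smul, map_mul, map_one]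

theorem cond_x (hd : 1 ≤ d) {α x y z t : K}
    (h : Adapted (kD K d) (lin5 d α x y z t) (kA K d)) :
    ∃ a b : K, (a - b) ^ 2 = 4 ∧ x + z * (b - a) + t * (a + b) ≠ 0 ∧
      x + z * (a - b) + t * (a + b) ≠ 0 ∧
      ((kD K d * (kD K d * kD K d) = (4 : K) • kD K d) → a ^ 3 = 4 * a ∧ b ^ 3 = 4 * b) := by
  obtain ⟨φ, hφ, hD, hX, hA⟩ := adapted_hom h
  have hadj := adj_of_rel hD hA (map_rel φ relDDA) 0 (by omega) (by omega)
  rw [show (0 : ℤ) + 1 = 1 by norm_num] at hadj
  have hu := hX.ne_up 0 (by omega) (by omega)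
  have hl := hX.ne_down 0 (by omega) (by omega)
  have hoff : ∀ i j : ℤ, i ≠ j → ent (φ (lin5 d α x y z t)) i j =
      ent (φ (kA K d)) i j * (x + z * (ent (φ (kD K d)) j j - ent (φ (kD K d)) i i) +
      t * (ent (φ (kD K d)) j j + ent (φ (kD K d)) i i)) := by
    intro i j hij
    rw [map_lin5]
    simp only [ent_add, ent_smul, ent_sub, ent_mul_diag hD, ent_diag_mul hD]
    rw [ent_one_off i j hij, hD i j (by omega)]
    ring
  rw [show (0 : ℤ) + 1 = 1 by norm_num, hoff _ _ (by omega)] at hu hl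
  refine ⟨ent (φ (kD K d)) 0 0, ent (φ (kD K d)) 1 1, hadj, ?_, ?_, ?_⟩
  · intro h0
    apply hu
    rw [show x + z * (ent (φ (kD K d)) 1 1 - ent (φ (kD K d)) 0 0) +
      t * (ent (φ (kD K d)) 1 1 + ent (φ (kD K d)) 0 0) = 0 by linear_combination h0, mul_zero]
  · intro h0
    apply hl
    rw [show x + z * (ent (φ (kD K d)) 0 0 - ent (φ (kD K d)) 1 1) +
      t * (ent (φ (kD K d)) 0 0 + ent (φ (kD K d)) 1 1) = 0 by linear_combination h0, mul_zero]
  · intro h3
    have h4 : φ (kD K d) * (φ (kD K d) * φ (kD K d)) = (4 : K) • φ (kD K d) := by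
      have := congrArg φ h3
      simpa only [map_smul, map_mul] using this
    constructor
    · have h5 := ent_congr h4 0 0
      rw [ent_smul, ent_diag_mul hD, ent_diag_mul hD] at h5
      linear_combination h5
    · have h5 := ent_congr h4 1 1
      rw [ent_smul, ent_diag_mul hD, ent_diag_mul hD] at h5
      linear_combination h5

theorem cond_y (hd : 1 ≤ d) {α x y z : K}
    (h : Adapted (kA K d) (kD K d) (lin5 d α x y z 0)) : y ^ 2 ≠ 4 * z ^ 2 := by
  obtain ⟨φ, hφ, hA, hD, hX⟩ := adapted_hom h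
  have hadj := adj_of_rel hA hD (map_rel φ relAAD) 0 (by omega) (by omega)
  rw [show (0 : ℤ) + 1 = 1 by norm_num] at hadj
  have hu := hX.ne_up 0 (by omega) (by omega)
  have hl := hX.ne_down 0 (by omega) (by omega)
  have hoff : ∀ i j : ℤ, i ≠ j → ent (φ (lin5 d α x y z 0)) i j =
      ent (φ (kD K d)) i j * (y + z * (ent (φ (kA K d)) i i - ent (φ (kA K d)) j j)) := by
    intro i j hij
    rw [map_lin5]
    simp only [ent_add, ent_smul, ent_sub, ent_mul_diag hA, ent_diag_mul hA]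
    rw [ent_one_off i j hij, hA i j (by omega)]
    ring
  rw [show (0 : ℤ) + 1 = 1 by norm_num, hoff _ _ (by omega)] at hu hl
  intro hyz
  have h1 : (y + z * (ent (φ (kA K d)) 0 0 - ent (φ (kA K d)) 1 1)) *
      (y + z * (ent (φ (kA K d)) 1 1 - ent (φ (kA K d)) 0 0)) = 0 := by
    linear_combination hyz - z ^ 2 * hadj
  rcases mul_eq_zero.1 h1 with h2 | h2
  · exact hu (by rw [h2, mul_zero])
  · exact hl (by rw [h2, mul_zero])

theorem cub_lin3 (α x y z : K) (T : K × K × K) :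
    cub (lin5 d α x y z 0) (lin3 d T.1 T.2.1 T.2.2) =
      (4 * (x ^ 2 + y ^ 2 - 4 * z ^ 2)) • (lin5 d α x y z 0 * lin3 d T.1 T.2.1 T.2.2 -
        lin3 d T.1 T.2.1 T.2.2 * lin5 d α x y z 0) := by
  obtain ⟨a, b, e⟩ := T
  simp only []
  have hX : lin5 d α x y z 0 = α • 1 + lin3 d x y z := by unfold lin5; module
  rw [hX]
  have h1 : cub (α • (1 : Matrix (Fin (d + 1)) (Fin (d + 1)) K) + lin3 d x y z) (lin3 d a b e) =
      lin3 d x y z * (lin3 d x y z * (lin3 d x y z * lin3 d a b e -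
        lin3 d a b e * lin3 d x y z) -
        (lin3 d x y z * lin3 d a b e - lin3 d a b e * lin3 d x y z) * lin3 d x y z) -
      (lin3 d x y z * (lin3 d x y z * lin3 d a b e - lin3 d a b e * lin3 d x y z) -
        (lin3 d x y z * lin3 d a b e - lin3 d a b e * lin3 d x y z) * lin3 d x y z) *
        lin3 d x y z := by
    unfold cub
    generalize lin3 d x y z = S
    generalize lin3 d a b e = T
    simp only [mul_add, add_mul, mul_sub, sub_mul, mul_smul_comm, smul_mul_assoc, mul_assoc,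
      one_mul, mul_one, smul_add, smul_smul]
    module
  have h2 : (α • (1 : Matrix (Fin (d + 1)) (Fin (d + 1)) K) + lin3 d x y z) * lin3 d a b e -
      lin3 d a b e * (α • 1 + lin3 d x y z) =
      lin3 d x y z * lin3 d a b e - lin3 d a b e * lin3 d x y z := by
    simp only [mul_add, add_mul, mul_smul_comm, smul_mul_assoc, one_mul, mul_one]
    module
  rw [h1, h2, br, br, br, lin3_smul]
  congr 1 <;> ring

theorem cond_N [CharZero K] (hd : 1 ≤ d) {α x y z : K}
    (h2 : Adapted (kD K d) (lin5 d α x y z 0) (kA K d))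
    (h : Adapted (lin5 d α x y z 0) (kA K d) (kD K d)) : x ^ 2 + y ^ 2 ≠ 4 * z ^ 2 := by
  intro hN
  obtain ⟨φ, hφ, hX, hA, hD⟩ := adapted_hom h
  have h1 := cub_lin3 (d := d) α x y z (1, 0, 0)
  simp only [] at h1
  rw [← kA_eq, show 4 * (x ^ 2 + y ^ 2 - 4 * z ^ 2) = 0 by linear_combination 4 * hN,
    zero_smul] at h1
  have h3 : cub (φ (lin5 d α x y z 0)) (φ (kA K d)) = 0 := by
    rw [← map_cub, h1, map_zero]
  have h4 : ∀ i : ℤ, 0 ≤ i → i + 1 ≤ d → ent (φ (lin5 d α x y z 0)) i i =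
      ent (φ (lin5 d α x y z 0)) (i + 1) (i + 1) := by
    intro i h0 h5
    have h6 := ent_congr h3 i (i + 1)
    rw [ent_cub hX, ent_zero] at h6
    have h7 := (mul_eq_zero.1 h6).resolve_right (hA.ne_up i h0 h5)
    have h8 := pow_eq_zero_iff (by norm_num : (3 : ℕ) ≠ 0) |>.1 h7
    linear_combination h8
  have h5 : ∀ k : ℕ, (k : ℤ) ≤ d → ent (φ (lin5 d α x y z 0)) (k : ℤ) (k : ℤ) =
      ent (φ (lin5 d α x y z 0)) 0 0 := by
    intro k
    induction k with
    | zero => intro _; rfl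
    | succ k ih =>
      intro hk
      have := h4 (k : ℤ) (by omega) (by push_cast at hk; omega)
      push_cast
      rw [← this]
      exact ih (by push_cast at hk; omega)
  have h6 : φ (lin5 d α x y z 0) = φ ((ent (φ (lin5 d α x y z 0)) 0 0) • 1) := by
    rw [map_smul, map_one]
    apply ent_ext
    intro i j h0 h1 h2 h3
    rw [ent_smul]
    by_cases hij : i = j
    · subst hij
      rw [ent_one_diag i h0 h1]
      obtain ⟨k, rfl⟩ : ∃ k : ℕ, i = (k : ℤ) := ⟨i.toNat, by omega⟩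
      rw [h5 k h1]; ring
    · rw [ent_one_off i j hij, hX i j (by omega), mul_zero]
  have h7 := hφ h6
  obtain ⟨ψ, hψ, hD2, hX2, hA2⟩ := adapted_hom h2
  have h8 := hX2.ne_up 0 (by omega) (by omega)
  rw [h7, map_smul, map_one, ent_smul, ent_one_off 0 (0 + 1) (by omega), mul_zero] at h8
  exact h8 rfl

theorem cond_x0 (hd : 1 ≤ d) {α x y z : K}
    (h : Adapted (kD K d) (lin5 d α x y z 0) (kA K d)) : x ^ 2 ≠ 4 * z ^ 2 := by
  obtain ⟨a, b, h1, h2, h3, -⟩ := cond_x hd h
  intro h4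
  have h5 : (x + z * (b - a) + 0 * (a + b)) * (x + z * (a - b) + 0 * (a + b)) = 0 := by
    linear_combination h4 - z ^ 2 * h1
  rcases mul_eq_zero.1 h5 with h6 | h6
  · exact h2 h6
  · exact h3 h6

theorem kD_cube : kD K 2 * (kD K 2 * kD K 2) = (4 : K) • kD K 2 := by
  ext i j
  fin_cases i <;> fin_cases j <;> simp [kD, Matrix.diagonal_apply] <;> norm_num

theorem cond_zt [CharZero K] {α z t : K}
    (h : Adapted (kD K 2) (lin5 2 α 0 0 z t) (kA K 2)) : z ^ 2 ≠ t ^ 2 := by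
  obtain ⟨a, b, h1, h2, h3, h4⟩ := cond_x (by norm_num) h
  obtain ⟨ha, hb⟩ := h4 kD_cube
  have hab : a * b = 0 := by
    by_contra hne
    have ha0 : a ≠ 0 := fun h0 => hne (by rw [h0, zero_mul])
    have hb0 : b ≠ 0 := fun h0 => hne (by rw [h0, mul_zero])
    have ha2 : a ^ 2 = 4 := by
      apply mul_left_cancel₀ ha0; linear_combination ha
    have hb2 : b ^ 2 = 4 := by
      apply mul_left_cancel₀ hb0; linear_combination hb
    have hab2 : a * b = 2 := by linear_combination (1 / 2 : K) * (ha2 + hb2 - h1)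
    have : (12 : K) = 0 := by
      linear_combination (-b ^ 2) * ha2 - 4 * hb2 + (a * b + 2) * hab2
    norm_num at this
  intro h5
  have h6 : (0 + z * (b - a) + t * (a + b)) * (0 + z * (a - b) + t * (a + b)) = 0 := by
    linear_combination (-z ^ 2 + t ^ 2) * h1 + 4 * t ^ 2 * hab - 4 * h5
  rcases mul_eq_zero.1 h6 with h7 | h7
  · exact h2 h7
  · exact h3 h7

theorem form_one [CharZero K] (X : Matrix (Fin (1 + 1)) (Fin (1 + 1)) K) :
    ∃ α x y z : K, X = lin5 1 α x y z 0 := by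
  refine ⟨(X 0 0 + X 1 1) / 2, (X 0 1 + X 1 0) / 2, (X 0 0 - X 1 1) / 2,
    (X 1 0 - X 0 1) / 4, ?_⟩
  ext i j
  fin_cases i <;> fin_cases j <;>
    simp [lin5, lin3, kB, kA, kD, kQ, Matrix.diagonal_apply, Matrix.mul_apply] <;> ring

end Pool.Agent.Helper273_LT
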