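import Pool.Agent.Helper273_LT.Rel

namespace Pool.Agent.Helper273_LT

open Matrix

variable {K : Type*} [Field K] [CharZero K] {d : ℕ}

/-- raising part -/
def kE (K : Type*) [Field K] (d : ℕ) : Matrix (Fin (d + 1)) (Fin (d + 1)) K :=
  fun i j => if (i : ℕ) + 1 = j then (d : K) - (i : ℕ) else 0

/-- lowering part -/
def kF (K : Type*) [Field K] (d : ℕ) : Matrix (Fin (d + 1)) (Fin (d + 1)) K :=
  fun i j => if (j : ℕ) + 1 = i then ((j : ℕ) : K) + 1 else 0

omit [CharZero K] in
theorem four_kE : (4 : K) • kE K d =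
    (2 : K) • kA K d - (kA K d * kD K d - kD K d * kA K d) := by
  ext i j
  simp only [Matrix.smul_apply, Matrix.sub_apply, kD, Matrix.mul_diagonal, Matrix.diagonal_mul,
    kA, kE, smul_eq_mul]
  split_ifs with h1 h2
  · have : ((j : ℕ) : K) = ((i : ℕ) : K) + 1 := by rw [← h1]; push_cast; ring
    rw [this]; ring
  · have : ((i : ℕ) : K) = ((j : ℕ) : K) + 1 := by rw [← h2]; push_cast; ring
    rw [this]; ring
  · ring

omit [CharZero K] in
theorem four_kF : (4 : K) • kF K d =
    (2 : K) • kA K d + (kA K d * kD K d - kD K d * kA K d) := by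
  ext i j
  simp only [Matrix.smul_apply, Matrix.sub_apply, Matrix.add_apply, kD, Matrix.mul_diagonal,
    Matrix.diagonal_mul, kA, kF, smul_eq_mul]
  split_ifs with h1 h2 h3
  · omega
  · have : ((i : ℕ) : K) = ((j : ℕ) : K) + 1 := by rw [← h1]; push_cast; ring
    rw [this]; ring
  · have : ((j : ℕ) : K) = ((i : ℕ) : K) + 1 := by rw [← h3]; push_cast; ring
    rw [this]; ring
  · ring

omit [CharZero K] in
theorem kE_mulVec (w : Fin (d + 1) → K) (i : Fin (d + 1)) (h : (i : ℕ) + 1 < d + 1) :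
    (kE K d).mulVec w i = ((d : K) - (i : ℕ)) * w ⟨i + 1, h⟩ := by
  rw [Matrix.mulVec, dotProduct, Finset.sum_eq_single (⟨i + 1, h⟩ : Fin (d + 1))]
  · simp [kE]
  · intro b _ hb
    simp only [kE]
    rw [if_neg, zero_mul]
    intro h2
    apply hb
    apply Fin.ext
    exact h2.symm
  · intro h2; exact absurd (Finset.mem_univ _) h2

omit [CharZero K] in
theorem kE_mulVec_last (w : Fin (d + 1) → K) (i : Fin (d + 1)) (h : (i : ℕ) = d) :
    (kE K d).mulVec w i = 0 := by
  rw [Matrix.mulVec, dotProduct]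
  apply Finset.sum_eq_zero
  intro b _
  simp only [kE]
  rw [if_neg (by omega), zero_mul]

omit [CharZero K] in
theorem kF_mulVec_single (j : Fin (d + 1)) (h : (j : ℕ) + 1 < d + 1) :
    (kF K d).mulVec (Pi.single j 1) = (((j : ℕ) : K) + 1) • Pi.single ⟨j + 1, h⟩ 1 := by
  ext i
  rw [Matrix.mulVec_single_one]
  simp only [Matrix.col_apply, kF, Pi.smul_apply, smul_eq_mul]
  by_cases hi : (j : ℕ) + 1 = i
  · have : i = ⟨j + 1, h⟩ := Fin.ext hi.symm
    rw [if_pos hi, this, Pi.single_eq_same, mul_one]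
  · rw [if_neg hi, Pi.single_eq_of_ne, mul_zero]
    intro h2
    apply hi
    rw [h2]

theorem irr_AD (W : Submodule K (Fin (d + 1) → K))
    (hA : ∀ v ∈ W, (kA K d).mulVec v ∈ W) (hD : ∀ v ∈ W, (kD K d).mulVec v ∈ W)
    (hW : W ≠ ⊥) : W = ⊤ := by
  have hC : ∀ v ∈ W, (kA K d * kD K d - kD K d * kA K d).mulVec v ∈ W := by
    intro v hv
    rw [Matrix.sub_mulVec, ← Matrix.mulVec_mulVec, ← Matrix.mulVec_mulVec]
    exact W.sub_mem (hA _ (hD _ hv)) (hD _ (hA _ hv))
  have h4 : (4 : K) ≠ 0 := by norm_num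
  have hE : ∀ v ∈ W, (kE K d).mulVec v ∈ W := by
    intro v hv
    have : ((4 : K) • kE K d).mulVec v ∈ W := by
      rw [four_kE, Matrix.sub_mulVec, Matrix.smul_mulVec]
      exact W.sub_mem (W.smul_mem _ (hA _ hv)) (hC _ hv)
    rw [Matrix.smul_mulVec] at this
    exact (W.smul_mem_iff h4).1 this
  have hF : ∀ v ∈ W, (kF K d).mulVec v ∈ W := by
    intro v hv
    have : ((4 : K) • kF K d).mulVec v ∈ W := by
      rw [four_kF, Matrix.add_mulVec, Matrix.smul_mulVec]
      exact W.add_mem (W.smul_mem _ (hA _ hv)) (hC _ hv)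
    rw [Matrix.smul_mulVec] at this
    exact (W.smul_mem_iff h4).1 this
  -- e_0 in W
  have key : ∀ k : ℕ, ∀ hk : k < d + 1, ∀ w ∈ W, w ⟨k, hk⟩ ≠ 0 →
      (∀ j : Fin (d + 1), k < j → w j = 0) → (Pi.single 0 1 : Fin (d + 1) → K) ∈ W := by
    intro k
    induction k with
    | zero =>
      intro hk w hw h0 hz
      have : (Pi.single 0 1 : Fin (d + 1) → K) = (w 0)⁻¹ • w := by
        ext j
        by_cases hj : j = 0
        · subst hj
          rw [Pi.single_eq_same, Pi.smul_apply, smul_eq_mul, inv_mul_cancel₀]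
          exact h0
        · rw [Pi.single_eq_of_ne hj, Pi.smul_apply, hz j (by
            have : (j : ℕ) ≠ 0 := fun h => hj (Fin.ext h)
            omega), smul_zero]
      rw [this]
      exact W.smul_mem _ hw
    | succ k ih =>
      intro hk w hw h0 hz
      apply ih (by omega) _ (hE w hw)
      · rw [kE_mulVec _ _ (by simpa using hk)]
        apply mul_ne_zero
        · simp only []
          have : ((d : K) - (k : ℕ)) = ((d - k : ℕ) : K) := by
            rw [Nat.cast_sub (by omega)]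
          rw [this]
          exact_mod_cast (by omega : d - k ≠ 0)
        · exact h0
      · intro j hj
        by_cases hjd : (j : ℕ) = d
        · exact kE_mulVec_last _ _ hjd
        · rw [kE_mulVec _ _ (by omega), hz _ (by simp only []; omega), mul_zero]
  obtain ⟨w, hw, hw0⟩ := W.ne_bot_iff.1 hW
  -- maximal index with nonzero coordinate
  have hex : ∃ j : Fin (d + 1), w j ≠ 0 := by
    by_contra h
    push Not at h
    exact hw0 (funext h)
  obtain ⟨k, hk1, hk2⟩ : ∃ k : Fin (d + 1), w k ≠ 0 ∧ ∀ j : Fin (d + 1), k < j → w j = 0 := by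
    classical
    let S := Finset.univ.filter (fun j : Fin (d + 1) => w j ≠ 0)
    have hS : S.Nonempty := by
      obtain ⟨j, hj⟩ := hex
      exact ⟨j, by simp [S, hj]⟩
    refine ⟨S.max' hS, ?_, ?_⟩
    · have := S.max'_mem hS
      simpa [S] using this
    · intro j hj
      by_contra hne
      have : j ∈ S := by simp [S, hne]
      exact absurd (S.le_max' j this) (not_le.2 hj)
  have h0 : (Pi.single 0 1 : Fin (d + 1) → K) ∈ W :=
    key k k.2 w hw hk1 (fun j hj => hk2 j hj)
  have hall : ∀ k : ℕ, ∀ hk : k < d + 1, (Pi.single ⟨k, hk⟩ 1 : Fin (d + 1) → K) ∈ W := by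
    intro k
    induction k with
    | zero => intro hk; exact h0
    | succ k ih =>
      intro hk
      have h1 := hF _ (ih (by omega))
      rw [kF_mulVec_single _ (by simpa using hk)] at h1
      have h2 : (((k : ℕ) : K) + 1) ≠ 0 := by exact_mod_cast Nat.succ_ne_zero k
      exact (W.smul_mem_iff h2).1 h1
  rw [eq_top_iff]
  intro v _
  have : v = ∑ j, v j • (Pi.single j 1 : Fin (d + 1) → K) := by
    ext i
    simp [Finset.sum_apply, Pi.single_apply]
  rw [this]
  exact W.sum_mem (fun j _ => W.smul_mem _ (hall j j.2))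

end Pool.Agent.Helper273_LT
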