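import Pool.Agent.Helper273_LT.D2

namespace Pool.Agent.Helper273_LT

open Matrix

variable {K : Type*} [Field K]

theorem irr_zt [CharZero K] {α z t : K} (h : z ^ 2 ≠ t ^ 2) :
    IrrTridiag (lin5 2 α 0 0 z t) := by
  have h1 : t - z ≠ 0 := by
    intro h0; apply h; linear_combination (-(z + t)) * h0
  have h2 : t + z ≠ 0 := by
    intro h0; apply h; linear_combination (z - t) * h0
  have h4 : (4 : K) ≠ 0 := by norm_num
  have h2' : (2 : K) ≠ 0 := by norm_num
  have e1 : 2 * (0 : K) - 4 * z + 4 * t ≠ 0 := by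
    rw [show 2 * (0 : K) - 4 * z + 4 * t = 4 * (t - z) by ring]; exact mul_ne_zero h4 h1
  have e2 : (0 : K) + 2 * z + 2 * t ≠ 0 := by
    rw [show (0 : K) + 2 * z + 2 * t = 2 * (t + z) by ring]; exact mul_ne_zero h2' h2
  have e3 : (0 : K) - 2 * z - 2 * t ≠ 0 := by
    rw [show (0 : K) - 2 * z - 2 * t = (-2) * (t + z) by ring]
    exact mul_ne_zero (by norm_num) h2
  have e4 : 2 * (0 : K) + 4 * z - 4 * t ≠ 0 := by
    rw [show 2 * (0 : K) + 4 * z - 4 * t = (-4) * (t - z) by ring]
    exact mul_ne_zero (by norm_num) h1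
  rw [lin5_two]
  constructor
  · intro i j hij
    fin_cases i <;> fin_cases j <;> first | (exfalso; revert hij; decide) | simp
  · intro i j hij
    fin_cases i <;> fin_cases j <;> first
      | (exfalso; revert hij; decide)
      | exact ⟨e1, e2⟩
      | exact ⟨e3, e4⟩

theorem extra_isLeonardTriple [IsAlgClosed K] [CharZero K] {α z t : K} (h : z ^ 2 ≠ t ^ 2) :
    IsLeonardTriple (kA K 2) (kD K 2) (lin5 2 α 0 0 z t) := by
  have h1 : t - z ≠ 0 := by
    intro h0; apply h; linear_combination (-(z + t)) * h0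
  have h2 : t + z ≠ 0 := by
    intro h0; apply h; linear_combination (z - t) * h0
  have hDd : (kD K 2).IsDiag := by
    have := kD_isDiag (d := 2) (0 : K) 1
    rwa [zero_smul, zero_add, one_smul] at this
  refine ⟨?_, ?_, ?_⟩
  · rw [adapted_iff]
    obtain ⟨P, Q, hPQ, hQP, hS, hR⟩ := exists_model (kA K 2) (kD K 2) relAAD relDDA
      (kA_ne_zero (by norm_num)) (fun W h1 h2 h3 => irr_AD W h1 h2 h3)
    refine ⟨P, Q, hPQ, hQP, ?_, ?_, ?_⟩
    · rw [hS]; exact hDd
    · rw [hR]; exact irr_kA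
    · have e1 : Q * lin5 2 α 0 0 z t * P = lin5 2 α 0 0 (-z) t := by
        have e2 := map_lin5 (cjH P Q hPQ hQP) α 0 0 z t
        have e3 : (cjH P Q hPQ hQP) (kA K 2) = kD K 2 := hS
        have e4 : (cjH P Q hPQ hQP) (kD K 2) = kA K 2 := hR
        rw [e3, e4] at e2
        have e5 : (cjH P Q hPQ hQP) (lin5 2 α 0 0 z t) = Q * lin5 2 α 0 0 z t * P := rfl
        rw [← e5, e2]
        unfold lin5 lin3 kB kQ
        module
      rw [e1]
      exact irr_zt (by simpa using h)
  · rw [adapted_iff]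
    refine ⟨1, 1, by simp, by simp, ?_, ?_, ?_⟩
    · rw [one_mul, mul_one]; exact hDd
    · rw [one_mul, mul_one]; exact irr_zt h
    · rw [one_mul, mul_one]; exact irr_kA
  · rw [adapted_iff]
    obtain ⟨l, hl⟩ := IsAlgClosed.exists_eq_mul_self (4 * (t - z) * (4 * (t + z)))
    have hl0 : l ≠ 0 := by
      rintro rfl
      have : 4 * (t - z) * (4 * (t + z)) ≠ 0 :=
        mul_ne_zero (mul_ne_zero (by norm_num) h1) (mul_ne_zero (by norm_num) h2)
      apply this; rw [hl]; ring
    obtain ⟨p, hp⟩ : ∃ p : K, p = 4 * (t - z) := ⟨_, rfl⟩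
    have hp0 : p ≠ 0 := by rw [hp]; exact mul_ne_zero (by norm_num) h1
    have hl' : l * l = p * (4 * (t + z)) := by rw [← hl, hp]
    let P : Matrix (Fin 3) (Fin 3) K := !![p, 1, p; l, 0, -l; -p, 1, -p]
    let Q : Matrix (Fin 3) (Fin 3) K :=
      !![1 / (4 * p), 1 / (2 * l), -1 / (4 * p); 1 / 2, 0, 1 / 2;
        1 / (4 * p), -1 / (2 * l), -1 / (4 * p)]
    have hPQ : P * Q = 1 := by
      ext i j
      fin_cases i <;> fin_cases j <;>
        simp [P, Q, Matrix.mul_apply, Fin.sum_univ_three] <;> field_simp <;> ring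
    have hQP : Q * P = 1 := mul_eq_one_comm.1 hPQ
    have hX : Q * lin5 2 α 0 0 z t * P = !![α + l, 0, 0; 0, α, 0; 0, 0, α - l] := by
      have e : lin5 2 α 0 0 z t * P = P * !![α + l, 0, 0; 0, α, 0; 0, 0, α - l] := by
        rw [lin5_two]
        ext i j
        fin_cases i <;> fin_cases j <;>
          simp [P, Matrix.mul_apply, Fin.sum_univ_three] <;>
          first
            | linear_combination (-l) * hp
            | linear_combination -hl'
            | linear_combination l * hp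
      rw [mul_assoc, e, ← mul_assoc, hQP, one_mul]
    have hA : Q * kA K 2 * P = !![0, 1 / l, 0; 2 * l, 0, -2 * l; 0, -1 / l, 0] := by
      have e : kA K 2 * P = P * !![0, 1 / l, 0; 2 * l, 0, -2 * l; 0, -1 / l, 0] := by
        rw [kA_two]
        ext i j
        fin_cases i <;> fin_cases j <;>
          simp [P, Matrix.mul_apply, Fin.sum_univ_three] <;> field_simp <;> ring
      rw [mul_assoc, e, ← mul_assoc, hQP, one_mul]
    have hD : Q * kD K 2 * P = !![0, 1 / p, 0; 2 * p, 0, 2 * p; 0, 1 / p, 0] := by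
      have e : kD K 2 * P = P * !![0, 1 / p, 0; 2 * p, 0, 2 * p; 0, 1 / p, 0] := by
        rw [kD_two]
        ext i j
        fin_cases i <;> fin_cases j <;>
          simp [P, Matrix.mul_apply, Fin.sum_univ_three] <;> field_simp <;> ring
      rw [mul_assoc, e, ← mul_assoc, hQP, one_mul]
    refine ⟨P, Q, hPQ, hQP, ?_, ?_, ?_⟩
    · rw [hX]
      intro i j hij
      fin_cases i <;> fin_cases j <;> first | (exfalso; exact hij rfl) | simp
    · rw [hA]
      have g1 : 1 / l ≠ 0 := by simpa using hl0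
      have g2 : 2 * l ≠ 0 := mul_ne_zero (by norm_num) hl0
      have g3 : -2 * l ≠ 0 := mul_ne_zero (by norm_num) hl0
      have g4 : -1 / l ≠ 0 := by
        rw [neg_div]; exact neg_ne_zero.2 g1
      constructor
      · intro i j hij
        fin_cases i <;> fin_cases j <;> first | (exfalso; revert hij; decide) | simp
      · intro i j hij
        fin_cases i <;> fin_cases j <;> first
          | (exfalso; revert hij; decide)
          | exact ⟨g1, g2⟩
          | exact ⟨g3, g4⟩
    · rw [hD]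
      have g1 : 1 / p ≠ 0 := by simpa using hp0
      have g2 : 2 * p ≠ 0 := mul_ne_zero (by norm_num) hp0
      constructor
      · intro i j hij
        fin_cases i <;> fin_cases j <;> first | (exfalso; revert hij; decide) | simp
      · intro i j hij
        fin_cases i <;> fin_cases j <;> first
          | (exfalso; revert hij; decide)
          | exact ⟨g1, g2⟩
          | exact ⟨g2, g1⟩

/-- the converse: every Leonard triple extending `A, A*` is in one of the two families -/
theorem converse [CharZero K] {d : ℕ} (hd : 1 ≤ d) {X : Matrix (Fin (d + 1)) (Fin (d + 1)) K}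
    (h : IsLeonardTriple (kA K d) (kD K d) X) :
    (∃ α x y z : K, x ^ 2 ≠ 4 * z ^ 2 ∧ y ^ 2 ≠ 4 * z ^ 2 ∧ x ^ 2 + y ^ 2 ≠ 4 * z ^ 2 ∧
      X = lin5 d α x y z 0) ∨
    (d = 2 ∧ ∃ α z t : K, z ^ 2 ≠ t ^ 2 ∧ X = lin5 d α 0 0 z t) := by
  by_cases h1 : d = 1
  · subst h1
    obtain ⟨α, x, y, z, rfl⟩ := form_one X
    left
    exact ⟨α, x, y, z, cond_x0 hd h.2.1, cond_y hd h.1, cond_N hd h.2.1 h.2.2, rfl⟩
  obtain ⟨α, x, y, z, t, rfl⟩ := form5 (by omega) h
  by_cases ht : t = 0
  · subst ht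
    left
    exact ⟨α, x, y, z, cond_x0 hd h.2.1, cond_y hd h.1, cond_N hd h.2.1 h.2.2, rfl⟩
  · right
    have hd3 : ¬ 3 ≤ d := fun h3 => ht (t_zero h3 h)
    obtain rfl : d = 2 := by omega
    obtain ⟨rfl, rfl⟩ := d2_xy ht h.2.2
    exact ⟨rfl, α, z, t, cond_zt h.2.1, rfl⟩

end Pool.Agent.Helper273_LT
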