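import Pool.Agent.Helper273_LT.Irr

namespace Pool.Agent.Helper273_LT

open Matrix

attribute [local instance 100] LieRing.ofAssociativeRing

variable {K : Type*} [Field K] [CharZero K] {d : ℕ}

theorem exists_model [IsAlgClosed K] (S R : Matrix (Fin (d + 1)) (Fin (d + 1)) K)
    (h1 : S * (S * R) - (2 : K) • (S * (R * S)) + R * S * S = (4 : K) • R)
    (h2 : R * (R * S) - (2 : K) • (R * (S * R)) + S * R * R = (4 : K) • S)
    (hS : S ≠ 0)
    (irr : ∀ W : Submodule K (Fin (d + 1) → K), (∀ v ∈ W, S.mulVec v ∈ W) →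
      (∀ v ∈ W, R.mulVec v ∈ W) → W ≠ ⊥ → W = ⊤) :
    ∃ P Q : Matrix (Fin (d + 1)) (Fin (d + 1)) K, P * Q = 1 ∧ Q * P = 1 ∧
      Q * S * P = kD K d ∧ Q * R * P = kA K d := by
  let s : Module.End K (Fin (d + 1) → K) := Matrix.toLin' S
  let r : Module.End K (Fin (d + 1) → K) := Matrix.toLin' R
  have h1' : s * (s * r) - (2 : K) • (s * (r * s)) + r * (s * s) = (4 : K) • r := by
    have := congrArg Matrix.toLin' h1
    simp only [Matrix.toLin'_mul, map_sub, map_add, map_smul, LinearMap.comp_assoc] at this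
    exact this
  have h2' : r * (r * s) - (2 : K) • (r * (s * r)) + s * (r * r) = (4 : K) • s := by
    have := congrArg Matrix.toLin' h2
    simp only [Matrix.toLin'_mul, map_sub, map_add, map_smul, LinearMap.comp_assoc] at this
    exact this
  let q : Module.End K (Fin (d + 1) → K) := (1 / 2 : K) • (s * r - r * s)
  let e : Module.End K (Fin (d + 1) → K) := (1 / 2 : K) • (r + q)
  let f : Module.End K (Fin (d + 1) → K) := (1 / 2 : K) • (r - q)
  have hef : e + f = r := by
    simp only [e, f]; module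
  have ht : IsSl2Triple s e f := by
    constructor
    · intro h
      apply hS
      exact (Matrix.toLin'.map_eq_zero_iff).1 h
    · simp only [Ring.lie_def, e, f, q, mul_add, add_mul, mul_sub, sub_mul, smul_mul_assoc,
        mul_smul_comm, smul_add, smul_sub, smul_smul, mul_assoc]
      linear_combination (norm := module) (1 / 4 : K) • h2'
    · simp only [Ring.lie_def, e, q, mul_add, add_mul, mul_sub, sub_mul, smul_mul_assoc,
        mul_smul_comm, smul_add, smul_sub, smul_smul, mul_assoc]
      linear_combination (norm := module) (1 / 4 : K) • h1'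
    · simp only [Ring.lie_def, f, q, mul_add, add_mul, mul_sub, sub_mul, smul_mul_assoc,
        mul_smul_comm, smul_add, smul_sub, smul_smul, mul_assoc]
      linear_combination (norm := module) (-1 / 4 : K) • h1'
  obtain ⟨μ, m, hm, hP⟩ := ht.exists_hasPrimitiveVectorWith (R := K) (M := Fin (d + 1) → K)
  obtain ⟨n, hn⟩ := hP.exists_nat
  -- the vectors psi k = f^k m
  let psi : ℕ → (Fin (d + 1) → K) := fun k => (f ^ k) m
  have hpsi : ∀ k, ((LieModule.toEnd K (Module.End K (Fin (d + 1) → K)) (Fin (d + 1) → K) f) ^ k) m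
      = psi k := fun k => rfl
  have hs : ∀ k : ℕ, s (psi k) = ((n : K) - 2 * k) • psi k := by
    intro k
    have := hP.lie_h_pow_toEnd_f k
    rw [hpsi, hn] at this
    exact this
  have he : ∀ k : ℕ, e (psi (k + 1)) = (((k : K) + 1) * ((n : K) - k)) • psi k := by
    intro k
    have := hP.lie_e_pow_succ_toEnd_f k
    rw [hpsi, hpsi, hn] at this
    exact this
  have hf : ∀ k : ℕ, f (psi k) = psi (k + 1) := by
    intro k
    simp only [psi, pow_succ', Module.End.mul_apply]
  have he0 : e (psi 0) = 0 := hP.lie_e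
  have hne : ∀ k, k ≤ n → psi k ≠ 0 := by
    intro k hk
    have := hP.pow_toEnd_f_ne_zero_of_eq_nat hn hk
    rwa [hpsi] at this
  have hlast : psi (n + 1) = 0 := by
    have := hP.pow_toEnd_f_eq_zero_of_eq_nat hn
    rwa [hpsi] at this
  -- linear independence
  have hli : LinearIndependent K (fun k : Fin (n + 1) => psi k) := by
    apply Module.End.eigenvectors_linearIndependent' s (fun k : Fin (n + 1) => (n : K) - 2 * (k : ℕ))
    · intro a b hab
      simp only [] at hab
      have h3 : ((a : ℕ) : K) = ((b : ℕ) : K) := by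
        have h2 : (2 : K) ≠ 0 := two_ne_zero
        apply mul_left_cancel₀ h2
        linear_combination -hab
      exact Fin.ext (by exact_mod_cast h3)
    · intro k
      rw [Module.End.hasEigenvector_iff, Module.End.mem_eigenspace_iff]
      exact ⟨hs k, hne k (by omega)⟩
  -- invariant span
  let W : Submodule K (Fin (d + 1) → K) :=
    Submodule.span K (Set.range (fun k : Fin (n + 1) => psi k))
  have hmem : ∀ k : ℕ, k ≤ n → psi k ∈ W := fun k hk =>
    Submodule.subset_span ⟨⟨k, by omega⟩, rfl⟩
  have hWs : ∀ v ∈ W, s v ∈ W := by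
    intro v hv
    induction hv using Submodule.span_induction with
    | mem x hx =>
      obtain ⟨k, rfl⟩ := hx
      simp only []
      rw [hs]
      exact W.smul_mem _ (hmem _ (by omega))
    | zero => rw [map_zero]; exact W.zero_mem
    | add x y _ _ hx hy => rw [map_add]; exact W.add_mem hx hy
    | smul a x _ hx => rw [map_smul]; exact W.smul_mem _ hx
  have hWr : ∀ v ∈ W, r v ∈ W := by
    intro v hv
    induction hv using Submodule.span_induction with
    | mem x hx =>
      obtain ⟨k, rfl⟩ := hx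
      simp only []
      rw [← hef, LinearMap.add_apply, hf]
      apply W.add_mem
      · rcases Nat.eq_zero_or_pos (k : ℕ) with h0 | h0
        · rw [h0, he0]; exact W.zero_mem
        · obtain ⟨k', hk'⟩ : ∃ k', (k : ℕ) = k' + 1 := ⟨(k : ℕ) - 1, by omega⟩
          rw [hk', he]
          exact W.smul_mem _ (hmem _ (by omega))
      · by_cases hk : (k : ℕ) = n
        · rw [hk, hlast]; exact W.zero_mem
        · exact hmem _ (by omega)
    | zero => rw [map_zero]; exact W.zero_mem
    | add x y _ _ hx hy => rw [map_add]; exact W.add_mem hx hy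
    | smul a x _ hx => rw [map_smul]; exact W.smul_mem _ hx
  have hWtop : W = ⊤ := by
    apply irr W
    · intro v hv; exact hWs v hv
    · intro v hv; exact hWr v hv
    · intro hbot
      have h0 := hmem 0 (by omega)
      rw [hbot, Submodule.mem_bot] at h0
      exact hne 0 (by omega) h0
  have hnd : n = d := by
    have h3 := finrank_span_eq_card hli
    have h4 : Submodule.span K (Set.range (fun k : Fin (n + 1) => psi k)) = ⊤ := hWtop
    rw [h4, finrank_top, Module.finrank_fin_fun, Fintype.card_fin] at h3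
    omega
  subst hnd
  -- the matrix P
  let P : Matrix (Fin (n + 1)) (Fin (n + 1)) K := fun i j => ((Nat.factorial j : ℕ) : K)⁻¹ * psi j i
  have hfac : ∀ k : ℕ, ((Nat.factorial k : ℕ) : K) ≠ 0 := fun k =>
    Nat.cast_ne_zero.2 (Nat.factorial_ne_zero k)
  have hcol : ∀ j : Fin (n + 1), P.col j = ((Nat.factorial j : ℕ) : K)⁻¹ • psi j := by
    intro j; ext i; rfl
  have hPu : IsUnit P := by
    rw [← Matrix.linearIndependent_cols_iff_isUnit]
    have h5 : P.col = fun j : Fin (n + 1) => ((Nat.factorial j : ℕ) : K)⁻¹ • psi j := by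
      funext j; exact hcol j
    rw [h5]
    exact hli.units_smul (fun j => Units.mk0 _ (inv_ne_zero (hfac j)))
  have hdet : IsUnit P.det := (Matrix.isUnit_iff_isUnit_det P).1 hPu
  have hSP : S * P = P * kD K n := by
    ext i j
    have h6 : (S * P) i j = (S.mulVec (P.col j)) i := rfl
    rw [h6, hcol, Matrix.mulVec_smul]
    have h7 : S.mulVec (psi j) = ((n : K) - 2 * (j : ℕ)) • psi j := hs j
    rw [h7, kD, Matrix.mul_diagonal]
    simp only [Pi.smul_apply, smul_eq_mul, P]
    ring
  have hRP : R * P = P * kA K n := by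
    apply ent_ext
    intro i j hi0 hi1 hj0 hj1
    rw [ent_mul_kA _ i j hj0 hj1]
    obtain ⟨i', rfl⟩ : ∃ i' : Fin (n + 1), i = ((i' : ℕ) : ℤ) :=
      ⟨⟨i.toNat, by omega⟩, by simp only []; omega⟩
    obtain ⟨j', rfl⟩ : ∃ j' : Fin (n + 1), j = ((j' : ℕ) : ℤ) :=
      ⟨⟨j.toNat, by omega⟩, by simp only []; omega⟩
    have hentP : ∀ (k : ℕ) (hk : k < n + 1), ent P ((i' : ℕ) : ℤ) (k : ℤ) =
        ((Nat.factorial k : ℕ) : K)⁻¹ * psi k i' := by
      intro k hk
      exact ent_coe P i' ⟨k, hk⟩
    have h6 : (R * P) i' j' = (R.mulVec (P.col j')) i' := rfl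
    have h7 : R.mulVec (psi j') = r (psi j') := rfl
    rw [ent_coe, h6, hcol, Matrix.mulVec_smul, h7, ← hef, LinearMap.add_apply, hf]
    simp only [Pi.smul_apply, Pi.add_apply, smul_eq_mul, mul_add]
    congr 1
    · rcases Nat.eq_zero_or_pos (j' : ℕ) with h0 | h0
      · rw [h0, he0, ent_out P _ (((0 : ℕ) : ℤ) - 1) (by omega)]
        simp
      · obtain ⟨k, hk⟩ : ∃ k, (j' : ℕ) = k + 1 := ⟨(j' : ℕ) - 1, by omega⟩
        rw [hk, he]
        have h8 : (((k + 1 : ℕ) : ℤ) - 1) = (k : ℤ) := by push_cast; ring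
        rw [h8, hentP k (by omega), Nat.factorial_succ]
        have h9 : ((k : K) + 1) ≠ 0 := by exact_mod_cast Nat.succ_ne_zero k
        have h10 := hfac k
        simp only [Pi.smul_apply, smul_eq_mul]
        push_cast
        field_simp
        ring
    · by_cases hk : (j' : ℕ) = n
      · rw [hk, hlast, ent_out P _ (((n : ℕ) : ℤ) + 1) (by omega)]
        simp
      · have h8 : (((j' : ℕ) : ℤ) + 1) = (((j' : ℕ) + 1 : ℕ) : ℤ) := by push_cast; ring
        rw [h8, hentP _ (by omega), Nat.factorial_succ]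
        have h9 : (((j' : ℕ) : K) + 1) ≠ 0 := by exact_mod_cast Nat.succ_ne_zero (j' : ℕ)
        have h10 := hfac (j' : ℕ)
        push_cast
        field_simp
  refine ⟨P, P⁻¹, Matrix.mul_nonsing_inv _ hdet, Matrix.nonsing_inv_mul _ hdet, ?_, ?_⟩
  · rw [mul_assoc, hSP, ← mul_assoc, Matrix.nonsing_inv_mul _ hdet, one_mul]
  · rw [mul_assoc, hRP, ← mul_assoc, Matrix.nonsing_inv_mul _ hdet, one_mul]

end Pool.Agent.Helper273_LT
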