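import Pool.Agent.Helper273_LT.Constr

namespace Pool.Agent.Helper273_LT

open Matrix

variable {K : Type*} [Field K] [CharZero K] {d : ℕ}

omit [CharZero K] in
theorem ent_kAA (i j : ℤ) (h0 : 0 ≤ i) (h1 : i ≤ d) :
    ent (kA K d * kA K d) i j = i * ent (kA K d) (i - 1) j +
      ((d : K) - i) * ent (kA K d) (i + 1) j := ent_kA_mul _ i j h0 h1

theorem castne {a : ℤ} (h : a ≠ 0) : (a : K) ≠ 0 := Int.cast_ne_zero.2 h

theorem rec_zero (hd : 2 ≤ d) {Y : Matrix (Fin (d + 1)) (Fin (d + 1)) K} (hY : IsTri Y)
    {p0 p1 p2 : K}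
    (rel : kA K d * (kA K d * Y) - (2 : K) • (kA K d * (Y * kA K d)) + Y * kA K d * kA K d -
      (4 : K) • Y = p0 • 1 + p1 • kA K d + p2 • (kA K d * kA K d))
    (h00 : ent Y 0 0 = 0) (h11 : ent Y 1 1 = 0) (h01 : ent Y 0 1 = 0) (h12 : ent Y 1 2 = 0)
    (h10 : ent Y 1 0 = 0) : Y = 0 := by
  have hE : ∀ i j : ℤ, 0 ≤ i → i ≤ d → 0 ≤ j → j ≤ d →
      ((i : K) * ((i : K) - 1) * ent Y (i - 2) j +
      ((i : K) * ((d : K) - i + 1) + ((d : K) - i) * ((i : K) + 1)) * ent Y i j +
      ((d : K) - i) * ((d : K) - i - 1) * ent Y (i + 2) j) -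
      2 * ((i : K) * (((d : K) - j + 1) * ent Y (i - 1) (j - 1) +
        ((j : K) + 1) * ent Y (i - 1) (j + 1)) +
      ((d : K) - i) * (((d : K) - j + 1) * ent Y (i + 1) (j - 1) +
        ((j : K) + 1) * ent Y (i + 1) (j + 1))) +
      (((d : K) - j + 1) * ((d : K) - j + 2) * ent Y i (j - 2) +
      (((d : K) - j + 1) * j + ((j : K) + 1) * ((d : K) - j)) * ent Y i j +
      ((j : K) + 1) * ((j : K) + 2) * ent Y i (j + 2)) - 4 * ent Y i j =
      p0 * ent (1 : Matrix (Fin (d + 1)) (Fin (d + 1)) K) i j + p1 * ent (kA K d) i j +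
      p2 * (i * ent (kA K d) (i - 1) j + ((d : K) - i) * ent (kA K d) (i + 1) j) := by
    intro i j h0 h1 h2 h3
    have := ent_congr rel i j
    rw [ent_sub, ent_add, ent_sub, ent_smul, ent_smul, ent_add, ent_add, ent_smul, ent_smul,
      ent_smul, ent_AAM _ i j h0 h1, ent_MAA _ i j h2 h3, ent_AMA _ i j h0 h1 h2 h3,
      ent_kAA i j h0 h1] at this
    exact this
  -- upper entries vanish
  have hup : ∀ k : ℕ, ent Y (k : ℤ) ((k : ℤ) + 1) = 0 := by
    intro k
    induction k using Nat.strong_induction_on with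
    | _ k ih =>
      by_cases hk : d ≤ k
      · exact ent_out _ _ _ (by omega)
      · rcases k with _ | _ | k
        · exact h01
        · exact h12
        · have h := hE (k : ℤ) ((k : ℤ) + 3) (by omega) (by omega) (by omega) (by omega)
          have i0 := ih k (by omega)
          have i1 := ih (k + 1) (by omega)
          rw [hY ((k : ℤ) - 2) ((k : ℤ) + 3) (by omega), hY (k : ℤ) ((k : ℤ) + 3) (by omega),
            hY ((k : ℤ) - 1) ((k : ℤ) + 3 - 1) (by omega),
            hY ((k : ℤ) - 1) ((k : ℤ) + 3 + 1) (by omega),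
            hY ((k : ℤ) + 1) ((k : ℤ) + 3 + 1) (by omega),
            hY (k : ℤ) ((k : ℤ) + 3 + 2) (by omega),
            ent_one_off (k : ℤ) ((k : ℤ) + 3) (by omega),
            ent_kA_off (k : ℤ) ((k : ℤ) + 3) (by omega) (by omega),
            ent_kA_off ((k : ℤ) - 1) ((k : ℤ) + 3) (by omega) (by omega),
            ent_kA_off ((k : ℤ) + 1) ((k : ℤ) + 3) (by omega) (by omega)] at h
          have e1 : ent Y ((k : ℤ) + 1) ((k : ℤ) + 3 - 1) = 0 := by
            have : ((k : ℤ) + 3 - 1) = ((k + 1 : ℕ) : ℤ) + 1 := by push_cast; ring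
            rw [this]
            exact i1
          have e2 : ent Y (k : ℤ) ((k : ℤ) + 3 - 2) = 0 := by
            have : ((k : ℤ) + 3 - 2) = (k : ℤ) + 1 := by ring
            rw [this]
            exact i0
          rw [e1, e2] at h
          have h3 : ((d : K) - ((k : ℤ) : K)) * ((d : K) - ((k : ℤ) : K) - 1) *
              ent Y ((k : ℤ) + 2) ((k : ℤ) + 3) = 0 := by linear_combination h
          have h4 : ((d : K) - ((k : ℤ) : K)) ≠ 0 := by
            have := castne (K := K) (a := (d : ℤ) - k) (by omega)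
            push_cast at this ⊢
            exact this
          have h5 : ((d : K) - ((k : ℤ) : K) - 1) ≠ 0 := by
            have := castne (K := K) (a := (d : ℤ) - k - 1) (by omega)
            push_cast at this ⊢
            exact this
          have h6 := (mul_eq_zero.1 h3).resolve_left (mul_ne_zero h4 h5)
          push_cast
          have : ((k : ℤ) + 1 + 1) = (k : ℤ) + 2 := by ring
          rw [this]
          have : ((k : ℤ) + 2 + 1) = (k : ℤ) + 3 := by ring
          rw [this]
          exact h6
  have hdK : ∀ k : ℤ, k < d → ((d : K) - (k : K)) ≠ 0 := by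
    intro k hk
    have := castne (K := K) (a := (d : ℤ) - k) (by omega)
    push_cast at this ⊢
    exact this
  have a01 : ent (kA K d) 0 1 = d := by
    have := ent_kA_up (K := K) (d := d) 0 (by omega) (by omega)
    simpa using this
  have a10 : ent (kA K d) 1 0 = 1 := by
    have := ent_kA_down (K := K) (d := d) 1 (by omega) (by omega)
    simpa using this
  have a12 : ent (kA K d) 1 2 = (d : K) - 1 := by
    have := ent_kA_up (K := K) (d := d) 1 (by omega) (by omega)
    simpa using this
  have a21 : ent (kA K d) 2 1 = 2 := by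
    have := ent_kA_down (K := K) (d := d) 2 (by omega) (by omega)
    simpa using this
  have d0 : (d : K) ≠ 0 := by simpa using hdK 0 (by omega)
  have d1 : (d : K) - 1 ≠ 0 := by simpa using hdK 1 (by omega)
  -- p2 = 0
  have q1 : p0 + p2 * d = 0 := by
    have h := hE 0 0 (by omega) (by omega) (by omega) (by omega)
    rw [h00, hY (0 - 2) 0 (by omega), hY (0 + 2) 0 (by omega), hY (0 - 1) (0 + 1) (by omega),
      hY (0 + 1) (0 - 1) (by omega), hY 0 (0 + 2) (by omega), hY 0 (0 - 2) (by omega),
      ent_one_diag 0 (by omega) (by omega), ent_kA_off 0 0 (by omega) (by omega),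
      show (0 : ℤ) + 1 = 1 by norm_num, h11, a10] at h
    push_cast at h
    linear_combination -h
  have q2 : ent Y 2 2 = p2 := by
    have h := hE 0 2 (by omega) (by omega) (by omega) (by omega)
    rw [hY (0 - 2) 2 (by omega), hY 0 2 (by omega), hY (0 + 1) (2 + 1) (by omega),
      hY 0 (2 + 2) (by omega), ent_one_off 0 2 (by omega), ent_kA_off 0 2 (by omega) (by omega),
      show (2 : ℤ) - 1 = 1 by norm_num, show (0 : ℤ) + 1 = 1 by norm_num,
      show (0 : ℤ) + 2 = 2 by norm_num, show (2 : ℤ) - 2 = 0 by norm_num, h11, h00, a12] at h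
    push_cast at h
    have h2 : (d : K) * ((d : K) - 1) * (ent Y 2 2 - p2) = 0 := by linear_combination h
    have h3 := (mul_eq_zero.1 h2).resolve_left (mul_ne_zero d0 d1)
    linear_combination h3
  have q3 : p2 = 0 := by
    have h := hE 1 1 (by omega) (by omega) (by omega) (by omega)
    rw [h11, hY (1 - 2) 1 (by omega), hY (1 + 2) 1 (by omega), hY (1 - 1) (1 + 1) (by omega),
      hY (1 + 1) (1 - 1) (by omega), hY 1 (1 + 2) (by omega), hY 1 (1 - 2) (by omega),
      ent_one_diag 1 (by omega) (by omega), ent_kA_off 1 1 (by omega) (by omega),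
      show (1 : ℤ) + 1 = 2 by norm_num, show (1 : ℤ) - 1 = 0 by norm_num, h00, a01, a21, q2] at h
    push_cast at h
    have h2 : (6 * ((d : K) - 1)) * p2 = 0 := by linear_combination -h - q1
    exact (mul_eq_zero.1 h2).resolve_left (mul_ne_zero (by norm_num) d1)
  have q4 : p0 = 0 := by rw [q3] at q1; simpa using q1
  -- diagonal entries vanish
  have hdiag : ∀ k : ℕ, ent Y (k : ℤ) (k : ℤ) = 0 := by
    intro k
    induction k using Nat.strong_induction_on with
    | _ k ih =>
      by_cases hk : d < k
      · exact ent_out _ _ _ (by omega)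
      · rcases k with _ | _ | k
        · exact h00
        · exact h11
        · have h := hE (k : ℤ) ((k : ℤ) + 2) (by omega) (by omega) (by omega) (by omega)
          have i0 := ih k (by omega)
          have i1 := ih (k + 1) (by omega)
          rw [hY ((k : ℤ) - 2) ((k : ℤ) + 2) (by omega), hY (k : ℤ) ((k : ℤ) + 2) (by omega),
            hY ((k : ℤ) - 1) ((k : ℤ) + 2 - 1) (by omega),
            hY ((k : ℤ) - 1) ((k : ℤ) + 2 + 1) (by omega),
            hY ((k : ℤ) + 1) ((k : ℤ) + 2 + 1) (by omega),
            hY (k : ℤ) ((k : ℤ) + 2 + 2) (by omega),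
            ent_one_off (k : ℤ) ((k : ℤ) + 2) (by omega),
            ent_kA_off (k : ℤ) ((k : ℤ) + 2) (by omega) (by omega), q3] at h
          have e1 : ent Y ((k : ℤ) + 1) ((k : ℤ) + 2 - 1) = 0 := by
            have : ((k : ℤ) + 2 - 1) = ((k + 1 : ℕ) : ℤ) := by push_cast; ring
            rw [this]
            have : ((k : ℤ) + 1) = ((k + 1 : ℕ) : ℤ) := by push_cast; ring
            rw [this]
            exact i1
          have e2 : ent Y (k : ℤ) ((k : ℤ) + 2 - 2) = 0 := by
            have : ((k : ℤ) + 2 - 2) = (k : ℤ) := by ring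
            rw [this]
            exact i0
          rw [e1, e2] at h
          have h3 : ((d : K) - ((k : ℤ) : K)) * ((d : K) - ((k : ℤ) : K) - 1) *
              ent Y ((k : ℤ) + 2) ((k : ℤ) + 2) = 0 := by linear_combination h
          have h4 := hdK k (by omega)
          have h5 : ((d : K) - ((k : ℤ) : K) - 1) ≠ 0 := by
            have := hdK (k + 1) (by omega)
            push_cast at this ⊢
            rwa [sub_sub]
          have h6 := (mul_eq_zero.1 h3).resolve_left (mul_ne_zero h4 h5)
          push_cast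
          have : ((k : ℤ) + 1 + 1) = (k : ℤ) + 2 := by ring
          rw [this]
          exact h6
  -- first lower entries
  have r1 : ((d : K) - 1) * ent Y 2 1 = p1 := by
    have h := hE 0 1 (by omega) (by omega) (by omega) (by omega)
    rw [h01, hY (0 - 2) 1 (by omega), hY 0 (1 + 2) (by omega),
      ent_out Y 0 (1 - 2) (by omega),
      ent_one_off 0 1 (by omega), show (1 : ℤ) + 1 = 2 by norm_num,
      show (0 : ℤ) + 1 = 1 by norm_num, show (0 : ℤ) + 2 = 2 by norm_num,
      show (1 : ℤ) - 1 = 0 by norm_num, h10, h12, a01, q3] at h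
    push_cast at h
    apply mul_left_cancel₀ d0
    linear_combination h
  have r2 : ((d : K) - 2) * ent Y 3 2 = 3 * ((d : K) - 1) * ent Y 2 1 := by
    have h := hE 1 2 (by omega) (by omega) (by omega) (by omega)
    rw [h12, hY (1 - 2) 2 (by omega), hY (1 - 1) (2 + 1) (by omega), hY 1 (2 + 2) (by omega),
      ent_one_off 1 2 (by omega), show (2 : ℤ) + 1 = 3 by norm_num,
      show (1 : ℤ) + 1 = 2 by norm_num, show (1 : ℤ) + 2 = 3 by norm_num,
      show (1 : ℤ) - 1 = 0 by norm_num, show (2 : ℤ) - 1 = 1 by norm_num,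
      show (2 : ℤ) - 2 = 0 by norm_num, h10, h01, a12, q3] at h
    have h23 : ent Y 2 3 = 0 := hup 2
    rw [h23] at h
    push_cast at h
    apply mul_left_cancel₀ d1
    linear_combination h + ((d : K) - 1) * (- r1)
  have r3 : ent Y 2 1 = 0 := by
    by_cases hd2 : d = 2
    · have h32 : ent Y 3 2 = 0 := ent_out _ _ _ (by omega)
      rw [h32] at r2
      have h2 : (3 * ((d : K) - 1)) * ent Y 2 1 = 0 := by linear_combination -r2
      exact (mul_eq_zero.1 h2).resolve_left (mul_ne_zero (by norm_num) d1)
    · have h := hE 3 0 (by omega) (by omega) (by omega) (by omega)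
      rw [hY 3 0 (by omega), hY (3 + 2) 0 (by omega), hY (3 - 1) (0 - 1) (by omega),
        hY (3 + 1) (0 - 1) (by omega), hY (3 + 1) (0 + 1) (by omega), hY 3 (0 - 2) (by omega),
        ent_one_off 3 0 (by omega), ent_kA_off 3 0 (by omega) (by omega), q3,
        show (3 : ℤ) - 2 = 1 by norm_num, show (3 : ℤ) - 1 = 2 by norm_num,
        show (0 : ℤ) + 1 = 1 by norm_num, show (0 : ℤ) + 2 = 2 by norm_num, h10] at h
      push_cast at h
      have h2 : ent Y 3 2 = 3 * ent Y 2 1 := by linear_combination (1 / 2 : K) * h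
      rw [h2] at r2
      linear_combination (-1 / 3 : K) * r2
  have hlow : ∀ k : ℕ, ent Y ((k : ℤ) + 1) (k : ℤ) = 0 := by
    intro k
    induction k using Nat.strong_induction_on with
    | _ k ih =>
      by_cases hk : d ≤ k
      · exact ent_out _ _ _ (by omega)
      · rcases k with _ | _ | k
        · exact h10
        · exact r3
        · have h := hE ((k : ℤ) + 3) (k : ℤ) (by omega) (by omega) (by omega) (by omega)
          have i0 := ih k (by omega)
          have i1 := ih (k + 1) (by omega)
          rw [hY ((k : ℤ) + 3) (k : ℤ) (by omega), hY ((k : ℤ) + 3 + 2) (k : ℤ) (by omega),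
            hY ((k : ℤ) + 3 - 1) ((k : ℤ) - 1) (by omega),
            hY ((k : ℤ) + 3 + 1) ((k : ℤ) - 1) (by omega),
            hY ((k : ℤ) + 3 + 1) ((k : ℤ) + 1) (by omega),
            hY ((k : ℤ) + 3) ((k : ℤ) - 2) (by omega),
            ent_one_off ((k : ℤ) + 3) (k : ℤ) (by omega),
            ent_kA_off ((k : ℤ) + 3) (k : ℤ) (by omega) (by omega), q3] at h
          have e1 : ent Y ((k : ℤ) + 3 - 1) ((k : ℤ) + 1) = 0 := by
            have : ((k : ℤ) + 3 - 1) = ((k + 1 : ℕ) : ℤ) + 1 := by push_cast; ring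
            rw [this]
            exact i1
          have e2 : ent Y ((k : ℤ) + 3 - 2) (k : ℤ) = 0 := by
            have : ((k : ℤ) + 3 - 2) = (k : ℤ) + 1 := by ring
            rw [this]
            exact i0
          rw [e1, e2] at h
          have h3 : (((k : ℤ) : K) + 1) * (((k : ℤ) : K) + 2) *
              ent Y ((k : ℤ) + 3) ((k : ℤ) + 2) = 0 := by linear_combination h
          have h4 : (((k : ℤ) : K) + 1) ≠ 0 := by
            have := castne (K := K) (a := (k : ℤ) + 1) (by omega)
            push_cast at this ⊢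
            exact this
          have h5 : (((k : ℤ) : K) + 2) ≠ 0 := by
            have := castne (K := K) (a := (k : ℤ) + 2) (by omega)
            push_cast at this ⊢
            exact this
          have h6 := (mul_eq_zero.1 h3).resolve_left (mul_ne_zero h4 h5)
          push_cast
          have : ((k : ℤ) + 1 + 1) = (k : ℤ) + 2 := by ring
          rw [this]
          have : ((k : ℤ) + 2 + 1) = (k : ℤ) + 3 := by ring
          rw [this]
          exact h6
  apply ent_ext
  intro i j h0 h1 h2 h3
  rw [ent_zero]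
  by_cases c1 : j = i
  · subst c1
    obtain ⟨k, rfl⟩ : ∃ k : ℕ, j = (k : ℤ) := ⟨j.toNat, by omega⟩
    exact hdiag k
  · by_cases c2 : j = i + 1
    · subst c2
      obtain ⟨k, rfl⟩ : ∃ k : ℕ, i = (k : ℤ) := ⟨i.toNat, by omega⟩
      exact hup k
    · by_cases c3 : i = j + 1
      · subst c3
        obtain ⟨k, rfl⟩ : ∃ k : ℕ, j = (k : ℤ) := ⟨j.toNat, by omega⟩
        exact hlow k
      · exact hY i j (by omega)

/-- `A D + D A` -/
def kQ (K : Type*) [Field K] (d : ℕ) : Matrix (Fin (d + 1)) (Fin (d + 1)) K :=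
  kA K d * kD K d + kD K d * kA K d

omit [CharZero K] in
theorem ent_kQ (i j : ℤ) :
    ent (kQ K d) i j = (2 * (d : K) - 2 * i - 2 * j) * ent (kA K d) i j := by
  rw [kQ, ent_add, ent_mul_kD, ent_kD_mul]; ring

omit [CharZero K] in
theorem kB_isTri : IsTri (kB K d) := by
  intro i j hij; rw [ent_kB, kA_isTri i j hij, mul_zero]

omit [CharZero K] in
theorem kQ_isTri : IsTri (kQ K d) := by
  intro i j hij; rw [ent_kQ, kA_isTri i j hij, mul_zero]

/-- the operator `X ↦ [A,[A,X]] - 4 X` -/
def opA (X : Matrix (Fin (d + 1)) (Fin (d + 1)) K) : Matrix (Fin (d + 1)) (Fin (d + 1)) K :=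
  kA K d * (kA K d * X) - (2 : K) • (kA K d * (X * kA K d)) + X * kA K d * kA K d - (4 : K) • X

omit [CharZero K] in
theorem opA_one : opA (1 : Matrix (Fin (d + 1)) (Fin (d + 1)) K) = (-4 : K) • 1 := by
  unfold opA
  simp only [mul_one, one_mul]
  module

omit [CharZero K] in
theorem opA_A : opA (kA K d) = (-4 : K) • kA K d := by
  unfold opA
  simp only [mul_assoc]
  module

omit [CharZero K] in
theorem opA_D : opA (kD K d) = 0 := by
  unfold opA
  rw [relAAD]; simp

omit [CharZero K] in
theorem opA_B : opA (kB K d) = 0 := by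
  unfold opA
  have h := rAB (K := K) (d := d)
  have h1 : kA K d * (kA K d * kB K d) - (2 : K) • (kA K d * (kB K d * kA K d)) +
      kB K d * kA K d * kA K d = kA K d * (kA K d * kB K d - kB K d * kA K d) -
      (kA K d * kB K d - kB K d * kA K d) * kA K d := by
    simp only [mul_sub, sub_mul, mul_assoc]; module
  rw [h1, h]
  simp only [kB, mul_smul_comm, smul_mul_assoc]
  module

omit [CharZero K] in
theorem opA_Q : opA (kQ K d) = 0 := by
  unfold opA
  have h := relAAD (K := K) (d := d)
  have h1 : kA K d * (kA K d * kQ K d) - (2 : K) • (kA K d * (kQ K d * kA K d)) +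
      kQ K d * kA K d * kA K d = kA K d * (kA K d * (kA K d * kD K d) -
      (2 : K) • (kA K d * (kD K d * kA K d)) + kD K d * kA K d * kA K d) +
      (kA K d * (kA K d * kD K d) -
      (2 : K) • (kA K d * (kD K d * kA K d)) + kD K d * kA K d * kA K d) * kA K d := by
    simp only [kQ, mul_sub, sub_mul, mul_add, add_mul, mul_assoc, mul_smul_comm, smul_mul_assoc]
    module
  rw [h1, h]
  simp only [kQ, mul_smul_comm, smul_mul_assoc]
  module

omit [CharZero K] in
theorem opA_add (X Y : Matrix (Fin (d + 1)) (Fin (d + 1)) K) : opA (X + Y) = opA X + opA Y := by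
  unfold opA
  simp only [mul_add, add_mul, smul_add]
  module

omit [CharZero K] in
theorem opA_smul (c : K) (X : Matrix (Fin (d + 1)) (Fin (d + 1)) K) :
    opA (c • X) = c • opA X := by
  unfold opA
  simp only [mul_smul_comm, smul_mul_assoc, smul_smul, smul_add, smul_sub]
  module

/-- general element of the five dimensional space -/
def lin5 (d : ℕ) (α x y z t : K) : Matrix (Fin (d + 1)) (Fin (d + 1)) K :=
  α • 1 + lin3 d x y z + t • kQ K d

omit [CharZero K] in
theorem opA_lin5 (α x y z t : K) :
    opA (lin5 d α x y z t) = (-4 * α) • 1 + (-4 * x) • kA K d := by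
  unfold lin5 lin3
  simp only [opA_add, opA_smul, opA_one, opA_A, opA_D, opA_B, opA_Q]
  module

omit [CharZero K] in
theorem lin5_isTri (α x y z t : K) : IsTri (lin5 d α x y z t) := by
  intro i j hij
  unfold lin5 lin3
  simp only [ent_add, ent_smul]
  rw [ent_one_off i j (by omega), kA_isTri i j hij, kD_isTri i j hij, kB_isTri i j hij,
    kQ_isTri i j hij]
  ring

theorem rec_form (hd : 2 ≤ d) {X : Matrix (Fin (d + 1)) (Fin (d + 1)) K} (hX : IsTri X)
    {p0 p1 p2 : K} (rel : opA X = p0 • 1 + p1 • kA K d + p2 • (kA K d * kA K d)) :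
    ∃ α x y z t : K, X = lin5 d α x y z t := by
  have hdK : ∀ k : ℤ, k < d → ((d : K) - (k : K)) ≠ 0 := by
    intro k hk
    have := castne (K := K) (a := (d : ℤ) - k) (by omega)
    push_cast at this ⊢
    exact this
  have a01 : ent (kA K d) 0 1 = d := by
    have := ent_kA_up (K := K) (d := d) 0 (by omega) (by omega)
    simpa using this
  have a10 : ent (kA K d) 1 0 = 1 := by
    have := ent_kA_down (K := K) (d := d) 1 (by omega) (by omega)
    simpa using this
  have a12 : ent (kA K d) 1 2 = (d : K) - 1 := by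
    have := ent_kA_up (K := K) (d := d) 1 (by omega) (by omega)
    simpa using this
  have d0 : (d : K) ≠ 0 := by simpa using hdK 0 (by omega)
  have d1 : (d : K) - 1 ≠ 0 := by simpa using hdK 1 (by omega)
  let β1 := ent X 0 1 / d
  let β2 := ent X 1 2 / ((d : K) - 1)
  let γ0 := ent X 1 0
  let t := -(β2 - β1) / 4
  let z := (γ0 - β1) / 4
  let x := (γ0 + β1) / 2 - t * (2 * (d : K) - 2)
  let y := -(ent X 1 1 - ent X 0 0) / 2
  let α := ent X 0 0 - y * d
  refine ⟨α, x, y, z, t, ?_⟩
  have hb1 : ent X 0 1 = β1 * d := by simp only [β1]; field_simp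
  have hb2 : ent X 1 2 = β2 * ((d : K) - 1) := by simp only [β2]; field_simp
  have ht : 4 * t = β1 - β2 := by simp only [t]; ring
  have hz : 4 * z = γ0 - β1 := by simp only [z]; ring
  have hx : 2 * x = γ0 + β1 - t * (4 * (d : K) - 4) := by simp only [x]; ring
  have hy : 2 * y = ent X 0 0 - ent X 1 1 := by simp only [y]; ring
  have hα : α = ent X 0 0 - y * d := rfl
  have hγ : ent X 1 0 = γ0 := rfl
  clear_value α y x z t β1 β2 γ0
  have hentl : ∀ i j : ℤ, ent (lin5 d α x y z t) i j =
      α * ent (1 : Matrix (Fin (d + 1)) (Fin (d + 1)) K) i j + (x * ent (kA K d) i j +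
      y * ent (kD K d) i j + z * ((2 * (i : K) - 2 * j) * ent (kA K d) i j)) +
      t * ((2 * (d : K) - 2 * i - 2 * j) * ent (kA K d) i j) := by
    intro i j
    unfold lin5 lin3
    simp only [ent_add, ent_smul, ent_kB, ent_kQ]
  have key : X - lin5 d α x y z t = 0 := by
    apply rec_zero (p0 := p0 + 4 * α) (p1 := p1 + 4 * x) (p2 := p2) hd
    · intro i j hij
      rw [ent_sub, hX i j hij, lin5_isTri _ _ _ _ _ i j hij, sub_zero]
    · have h1 : X - lin5 d α x y z t = X + (-1 : K) • lin5 d α x y z t := by module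
      have h2 := opA_add X ((-1 : K) • lin5 d α x y z t)
      rw [opA_smul, rel, opA_lin5, ← h1] at h2
      unfold opA at h2
      rw [h2]
      module
    · rw [ent_sub, hentl, ent_one_diag 0 (by omega) (by omega),
        ent_kA_off 0 0 (by omega) (by omega), ent_kD_diag 0 (by omega) (by omega)]
      push_cast
      linear_combination -hα
    · rw [ent_sub, hentl, ent_one_diag 1 (by omega) (by omega),
        ent_kA_off 1 1 (by omega) (by omega), ent_kD_diag 1 (by omega) (by omega)]
      push_cast
      linear_combination -hα + hy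
    · rw [ent_sub, hentl, ent_one_off 0 1 (by omega), a01, ent_kD_off 0 1 (by omega), hb1]
      push_cast
      linear_combination (-(d : K) / 2) * hx + ((d : K) / 2) * hz
    · rw [ent_sub, hentl, ent_one_off 1 2 (by omega), a12, ent_kD_off 1 2 (by omega), hb2]
      push_cast
      linear_combination (-((d : K) - 1) / 2) * hx + (((d : K) - 1) / 2) * hz +
        ((d : K) - 1) * ht
    · rw [ent_sub, hentl, ent_one_off 1 0 (by omega), a10, ent_kD_off 1 0 (by omega), hγ]
      push_cast
      linear_combination (-1 / 2 : K) * hx - (1 / 2 : K) * hz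
  exact sub_eq_zero.1 key

end Pool.Agent.Helper273_LT
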