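import Pool.Agent.Helper273_LT.Ent

namespace Pool.Agent.Helper273_LT

open Matrix

variable {K : Type*} [Field K] {d : ℕ}

theorem ent_kA_up (i : ℤ) (h0 : 0 ≤ i) (h1 : i ≤ d) :
    ent (kA K d) i (i + 1) = (d : K) - i := by
  by_cases h : i = d
  · subst h
    rw [ent_out _ _ _ (by omega)]
    simp
  · unfold ent
    rw [dif_pos (by omega)]
    simp only [kA]
    rw [if_pos (by omega)]
    have : ((i.toNat : ℕ) : K) = (i : K) := by
      have h2 : ((i.toNat : ℕ) : ℤ) = i := Int.toNat_of_nonneg h0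
      exact_mod_cast congrArg (Int.cast : ℤ → K) h2
    rw [this]

theorem ent_kA_down (i : ℤ) (h0 : 0 ≤ i) (h1 : i ≤ d) :
    ent (kA K d) i (i - 1) = (i : K) := by
  by_cases h : i = 0
  · subst h
    rw [ent_out _ _ _ (by omega)]
    simp
  · unfold ent
    rw [dif_pos (by omega)]
    simp only [kA]
    rw [if_neg (by omega), if_pos (by omega)]
    have h2 : (((i - 1).toNat : ℕ) : ℤ) + 1 = i := by omega
    exact_mod_cast congrArg (Int.cast : ℤ → K) h2

theorem ent_kA_off (i j : ℤ) (h : j ≠ i + 1) (h2 : j ≠ i - 1) :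
    ent (kA K d) i j = 0 := by
  unfold ent
  split_ifs with h3
  · simp only [kA]
    rw [if_neg (by omega), if_neg (by omega)]
  · rfl

theorem kA_isTri : IsTri (kA K d) := by
  intro i j hij
  exact ent_kA_off i j (by omega) (by omega)

theorem ent_kD_diag (i : ℤ) (h0 : 0 ≤ i) (h1 : i ≤ d) :
    ent (kD K d) i i = (d : K) - 2 * i := by
  unfold ent
  rw [dif_pos (by omega)]
  simp only [kD, Matrix.diagonal_apply_eq]
  have : ((i.toNat : ℕ) : K) = (i : K) := by
    have h2 : ((i.toNat : ℕ) : ℤ) = i := Int.toNat_of_nonneg h0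
    exact_mod_cast congrArg (Int.cast : ℤ → K) h2
  rw [this]

theorem ent_kD_off (i j : ℤ) (h : i ≠ j) : ent (kD K d) i j = 0 := by
  unfold ent
  split_ifs with h3
  · simp only [kD]
    rw [Matrix.diagonal_apply_ne]
    intro h2
    rw [Fin.mk.injEq] at h2
    omega
  · rfl

theorem kD_isTri : IsTri (kD K d) := by
  intro i j hij
  exact ent_kD_off i j (by omega)

theorem ent_kA_mul (M : Matrix (Fin (d + 1)) (Fin (d + 1)) K) (i j : ℤ) (h0 : 0 ≤ i)
    (h1 : i ≤ d) :
    ent (kA K d * M) i j = i * ent M (i - 1) j + ((d : K) - i) * ent M (i + 1) j := by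
  rw [ent_tri_mul kA_isTri, ent_kA_up i h0 h1, ent_kA_down i h0 h1,
    ent_kA_off i i (by omega) (by omega)]
  ring

theorem ent_mul_kA (M : Matrix (Fin (d + 1)) (Fin (d + 1)) K) (i j : ℤ) (h0 : 0 ≤ j)
    (h1 : j ≤ d) :
    ent (M * kA K d) i j = ((d : K) - j + 1) * ent M i (j - 1) +
      ((j : K) + 1) * ent M i (j + 1) := by
  rw [ent_mul_tri kA_isTri, ent_kA_off j j (by omega) (by omega)]
  have e1 : ent M i (j - 1) * ent (kA K d) (j - 1) j =
      ((d : K) - j + 1) * ent M i (j - 1) := by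
    by_cases h : j = 0
    · subst h; rw [ent_out M i (0 - 1) (by omega)]; ring
    · have := ent_kA_up (K := K) (d := d) (j - 1) (by omega) (by omega)
      rw [sub_add_cancel] at this
      rw [this]; push_cast; ring
  have e2 : ent M i (j + 1) * ent (kA K d) (j + 1) j =
      ((j : K) + 1) * ent M i (j + 1) := by
    by_cases h : j = d
    · rw [ent_out M i (j + 1) (by omega)]; ring
    · have := ent_kA_down (K := K) (d := d) (j + 1) (by omega) (by omega)
      rw [add_sub_cancel_right] at this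
      rw [this]; push_cast; ring
  rw [e1, e2]; ring

theorem ent_kD_mul (M : Matrix (Fin (d + 1)) (Fin (d + 1)) K) (i j : ℤ) :
    ent (kD K d * M) i j = ((d : K) - 2 * i) * ent M i j := by
  by_cases h : 0 ≤ i ∧ i ≤ d
  · rw [ent_tri_mul kD_isTri, ent_kD_off i (i - 1) (by omega), ent_kD_off i (i + 1) (by omega),
      ent_kD_diag i h.1 h.2]
    ring
  · rw [ent_out _ i j (by omega), ent_out M i j (by omega)]; ring

theorem ent_mul_kD (M : Matrix (Fin (d + 1)) (Fin (d + 1)) K) (i j : ℤ) :
    ent (M * kD K d) i j = ((d : K) - 2 * j) * ent M i j := by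
  by_cases h : 0 ≤ j ∧ j ≤ d
  · rw [ent_mul_tri kD_isTri, ent_kD_off (j - 1) j (by omega), ent_kD_off (j + 1) j (by omega),
      ent_kD_diag j h.1 h.2]
    ring
  · rw [ent_out _ i j (by omega), ent_out M i j (by omega)]; ring

theorem ent_AAM (M : Matrix (Fin (d + 1)) (Fin (d + 1)) K) (i j : ℤ) (h0 : 0 ≤ i)
    (h1 : i ≤ d) :
    ent (kA K d * (kA K d * M)) i j = (i : K) * ((i : K) - 1) * ent M (i - 2) j +
      ((i : K) * ((d : K) - i + 1) + ((d : K) - i) * ((i : K) + 1)) * ent M i j +
      ((d : K) - i) * ((d : K) - i - 1) * ent M (i + 2) j := by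
  rw [ent_kA_mul _ i j h0 h1]
  have e1 : (i : K) * ent (kA K d * M) (i - 1) j =
      (i : K) * (((i : K) - 1) * ent M (i - 2) j + ((d : K) - i + 1) * ent M i j) := by
    by_cases h : i = 0
    · subst h; simp
    · rw [ent_kA_mul _ (i - 1) j (by omega) (by omega)]
      rw [show i - 1 - 1 = i - 2 by ring, show i - 1 + 1 = i by ring]
      push_cast; ring
  have e2 : ((d : K) - i) * ent (kA K d * M) (i + 1) j =
      ((d : K) - i) * (((i : K) + 1) * ent M i j + ((d : K) - i - 1) * ent M (i + 2) j) := by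
    by_cases h : i = d
    · subst h; simp
    · rw [ent_kA_mul _ (i + 1) j (by omega) (by omega)]
      rw [show i + 1 - 1 = i by ring, show i + 1 + 1 = i + 2 by ring]
      push_cast; ring
  rw [e1, e2]; ring

theorem ent_MAA (M : Matrix (Fin (d + 1)) (Fin (d + 1)) K) (i j : ℤ) (h0 : 0 ≤ j)
    (h1 : j ≤ d) :
    ent (M * kA K d * kA K d) i j =
      ((d : K) - j + 1) * ((d : K) - j + 2) * ent M i (j - 2) +
      (((d : K) - j + 1) * j + ((j : K) + 1) * ((d : K) - j)) * ent M i j +
      ((j : K) + 1) * ((j : K) + 2) * ent M i (j + 2) := by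
  rw [ent_mul_kA _ i j h0 h1]
  have e1 : ((d : K) - j + 1) * ent (M * kA K d) i (j - 1) =
      ((d : K) - j + 1) * (((d : K) - j + 2) * ent M i (j - 2) + (j : K) * ent M i j) := by
    by_cases h : j = 0
    · subst h
      rw [ent_out _ i (0 - 1) (by omega), ent_out M i (0 - 2) (by omega)]; simp
    · rw [ent_mul_kA _ i (j - 1) (by omega) (by omega)]
      rw [show j - 1 - 1 = j - 2 by ring, show j - 1 + 1 = j by ring]
      push_cast; ring
  have e2 : ((j : K) + 1) * ent (M * kA K d) i (j + 1) =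
      ((j : K) + 1) * (((d : K) - j) * ent M i j + ((j : K) + 2) * ent M i (j + 2)) := by
    by_cases h : j = d
    · rw [ent_out _ i (j + 1) (by omega), ent_out M i (j + 2) (by omega)]
      subst h; simp
    · rw [ent_mul_kA _ i (j + 1) (by omega) (by omega)]
      rw [show j + 1 - 1 = j by ring, show j + 1 + 1 = j + 2 by ring]
      push_cast; ring
  rw [e1, e2]; ring

theorem ent_AMA (M : Matrix (Fin (d + 1)) (Fin (d + 1)) K) (i j : ℤ) (h0 : 0 ≤ i)
    (h1 : i ≤ d) (h2 : 0 ≤ j) (h3 : j ≤ d) :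
    ent (kA K d * (M * kA K d)) i j =
      (i : K) * (((d : K) - j + 1) * ent M (i - 1) (j - 1) +
        ((j : K) + 1) * ent M (i - 1) (j + 1)) +
      ((d : K) - i) * (((d : K) - j + 1) * ent M (i + 1) (j - 1) +
        ((j : K) + 1) * ent M (i + 1) (j + 1)) := by
  rw [ent_kA_mul _ i j h0 h1, ent_mul_kA _ _ j h2 h3, ent_mul_kA _ _ j h2 h3]

/-- `[A,[A,D]] = 4 D` -/
theorem relAAD : kA K d * (kA K d * kD K d) - (2 : K) • (kA K d * (kD K d * kA K d)) +
    kD K d * kA K d * kA K d = (4 : K) • kD K d := by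
  apply ent_ext
  intro i j h0 h1 h2 h3
  rw [ent_add, ent_sub, ent_smul, ent_smul, ent_AAM _ i j h0 h1, ent_MAA _ i j h2 h3,
    ent_AMA _ i j h0 h1 h2 h3]
  by_cases ha : j = i
  · subst ha
    rw [ent_kD_off (j - 2) j (by omega), ent_kD_off (j + 2) j (by omega),
      ent_kD_off j (j - 2) (by omega), ent_kD_off j (j + 2) (by omega),
      ent_kD_off (j - 1) (j + 1) (by omega), ent_kD_off (j + 1) (j - 1) (by omega),
      ent_kD_diag j h0 h1]
    have e1 : (j : K) * ent (kD K d) (j - 1) (j - 1) = (j : K) * ((d : K) - 2 * j + 2) := by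
      by_cases h : j = 0
      · subst h; simp
      · rw [ent_kD_diag (j - 1) (by omega) (by omega)]; push_cast; ring
    have e2 : ((d : K) - j) * ent (kD K d) (j + 1) (j + 1) =
        ((d : K) - j) * ((d : K) - 2 * j - 2) := by
      by_cases h : j = d
      · subst h; simp
      · rw [ent_kD_diag (j + 1) (by omega) (by omega)]; push_cast; ring
    linear_combination (-2 * ((d : K) - j + 1)) * e1 + (-2 * ((j : K) + 1)) * e2
  · by_cases hb : j = i + 2
    · subst hb
      rw [ent_kD_off (i - 2) (i + 2) (by omega), ent_kD_off i (i + 2) (by omega),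
        ent_kD_off (i - 1) (i + 2 - 1) (by omega), ent_kD_off (i - 1) (i + 2 + 1) (by omega),
        ent_kD_off (i + 1) (i + 2 + 1) (by omega), ent_kD_off i (i + 2 + 2) (by omega),
        ent_kD_diag (i + 2) (by omega) (by omega)]
      rw [show i + 2 - 2 = i by ring, show i + 2 - 1 = i + 1 by ring,
        ent_kD_diag i (by omega) (by omega), ent_kD_diag (i + 1) (by omega) (by omega)]
      push_cast; ring
    · by_cases hc : j = i - 2
      · subst hc
        rw [ent_kD_off i (i - 2) (by omega), ent_kD_off (i + 2) (i - 2) (by omega),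
          ent_kD_off i (i - 2 - 2) (by omega), ent_kD_off (i - 1) (i - 2 - 1) (by omega),
          ent_kD_off (i + 1) (i - 2 - 1) (by omega), ent_kD_off (i + 1) (i - 2 + 1) (by omega),
          ent_kD_diag (i - 2) (by omega) (by omega)]
        rw [show i - 2 + 2 = i by ring, show i - 2 + 1 = i - 1 by ring,
          ent_kD_diag i (by omega) (by omega), ent_kD_diag (i - 1) (by omega) (by omega)]
        push_cast; ring
      · rw [ent_kD_off i j (by omega), ent_kD_off (i - 2) j (by omega),
          ent_kD_off (i + 2) j (by omega), ent_kD_off i (j - 2) (by omega),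
          ent_kD_off i (j + 2) (by omega), ent_kD_off (i - 1) (j - 1) (by omega),
          ent_kD_off (i - 1) (j + 1) (by omega), ent_kD_off (i + 1) (j - 1) (by omega),
          ent_kD_off (i + 1) (j + 1) (by omega)]
        ring

/-- `[D,[D,A]] = 4 A` -/
theorem relDDA : kD K d * (kD K d * kA K d) - (2 : K) • (kD K d * (kA K d * kD K d)) +
    kA K d * kD K d * kD K d = (4 : K) • kA K d := by
  apply ent_ext
  intro i j h0 h1 h2 h3
  rw [ent_add, ent_sub, ent_smul, ent_smul, ent_kD_mul, ent_kD_mul, ent_kD_mul, ent_mul_kD,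
    ent_mul_kD, ent_mul_kD]
  by_cases ha : j = i + 1
  · subst ha; push_cast; ring
  · by_cases hb : j = i - 1
    · subst hb; push_cast; ring
    · rw [ent_kA_off i j ha hb]; ring

end Pool.Agent.Helper273_LT
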