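import Pool.Agent.Helper273_LT.Base

namespace Pool.Agent.Helper273_LT

open Matrix

variable {K : Type*} [Field K]

/-- The commutator `[X, Y] = XY - YX`. -/
def lieComm {n : ℕ} (X Y : Matrix (Fin n) (Fin n) K) : Matrix (Fin n) (Fin n) K := X * Y - Y * X

/-- The anticommutator `XY + YX`. -/
def anti {n : ℕ} (X Y : Matrix (Fin n) (Fin n) K) : Matrix (Fin n) (Fin n) K := X * Y + Y * X

/-- `α I + x A + y A* + z [A, A*]`. -/
def fam (d : ℕ) (α x y z : K) : Matrix (Fin (d + 1)) (Fin (d + 1)) K :=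
  α • 1 + x • kA K d + y • kD K d + z • lieComm (kA K d) (kD K d)

/-- `α I + z [A, A*] + t (A A* + A* A)`. -/
def extra (d : ℕ) (α z t : K) : Matrix (Fin (d + 1)) (Fin (d + 1)) K :=
  α • 1 + z • lieComm (kA K d) (kD K d) + t • anti (kA K d) (kD K d)

/-- `X = α I + x A + y A* + z [A, A*]` for some scalars with `x², y², x² + y² ≠ 4 z²`. -/
def InFamily (d : ℕ) (X : Matrix (Fin (d + 1)) (Fin (d + 1)) K) : Prop :=
  ∃ α x y z : K, x ^ 2 ≠ 4 * z ^ 2 ∧ y ^ 2 ≠ 4 * z ^ 2 ∧ x ^ 2 + y ^ 2 ≠ 4 * z ^ 2 ∧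
    X = fam d α x y z

/-- `X = α I + z [A, A*] + t (A A* + A* A)` for some scalars with `z² ≠ t²`. -/
def InExtra (d : ℕ) (X : Matrix (Fin (d + 1)) (Fin (d + 1)) K) : Prop :=
  ∃ α z t : K, z ^ 2 ≠ t ^ 2 ∧ X = extra d α z t

/-- The linear span of `I, A, A*, X`. -/
def fourSpan {d : ℕ} (X : Matrix (Fin (d + 1)) (Fin (d + 1)) K) :
    Submodule K (Matrix (Fin (d + 1)) (Fin (d + 1)) K) :=
  Submodule.span K {1, kA K d, kD K d, X}

/-- `M` is in the linear span of `I, A, A*, X`. -/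
def InSpan {d : ℕ} (X M : Matrix (Fin (d + 1)) (Fin (d + 1)) K) : Prop := M ∈ fourSpan X

end Pool.Agent.Helper273_LT
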